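import Pool.Agent.H65.MF.LIN1

set_option linter.style.haveILetI false
set_option linter.unusedSectionVars false
set_option autoImplicit false

namespace Pool.Agent.H51.MF

open Module

/-- Maximal elements from bounds of chains. -/
theorem CHAIN_max {n : ℕ} {le : (Fin n → ℤ) → (Fin n → ℤ) → Prop}
    (htrans : ∀ η η' η'', le η η' → le η' η'' → le η η'') (hrefl : ∀ η, le η η)
    (F : (Fin n → ℤ) → Prop)
    (hK : ∀ θ : ℕ → (Fin n → ℤ), (∀ i, F (θ i)) → (∀ i, le (θ i) (θ (i + 1))) →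
      ∃ θ', F θ' ∧ ∀ i, le (θ i) θ') (θ : Fin n → ℤ) (hθ : F θ) :
    ∃ θ', F θ' ∧ le θ θ' ∧ ∀ η, F η → le θ' η → le η θ' := by
  classical
  obtain ⟨q, hq⟩ := exists_surjective_nat (Fin n → ℤ)
  let s : ℕ → (Fin n → ℤ) := fun k => Nat.rec θ
    (fun k t => if F (q k) ∧ le t (q k) then q k else t) k
  have hs : ∀ k, s (k + 1) = if F (q k) ∧ le (s k) (q k) then q k else s k := fun k => rfl
  have hF : ∀ k, F (s k) := by
    intro k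
    induction k with
    | zero => exact hθ
    | succ k ih =>
      rw [hs]
      split_ifs with h
      · exact h.1
      · exact ih
  have hle : ∀ k, le (s k) (s (k + 1)) := by
    intro k
    rw [hs]
    split_ifs with h
    · exact h.2
    · exact hrefl _
  obtain ⟨θ', h1, h2⟩ := hK s hF hle
  refine ⟨θ', h1, h2 0, fun η hη hη' => ?_⟩
  obtain ⟨k, hk⟩ := hq η
  have h3 : s (k + 1) = η := by
    rw [hs, hk, if_pos ⟨hη, htrans _ _ _ (h2 k) hη'⟩]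
  rw [← h3]
  exact h2 (k + 1)

theorem CHAIN_main (hLIN1 : S_LIN1) (hLIN3 : S_LIN3) {n : ℕ} {D : Set (Fin n → ℤ)}
    {le : (Fin n → ℤ) → (Fin n → ℤ) → Prop} {AA : Set (Set (Fin n → ℤ))}
    (hrefl : ∀ η, le η η) (htrans : ∀ η η' η'', le η η' → le η' η'' → le η η'')
    (hscale : ∀ (η η' : Fin n → ℤ) (a b : ℕ), 0 < a → 0 < b →
      (∀ w ∈ D, (a : ℤ) * (η ⬝ᵥ w) = b * (η' ⬝ᵥ w)) → le η η')
    (hfin : ∀ V ∈ AA, V.Finite ∧ ∀ w ∈ V, w ∈ D ∨ -w ∈ D)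
    (hpush : ∀ V ∈ AA, ∀ θ₁, InF V ∅ θ₁ → NZ D θ₁ → ∃ V₁ ∈ AA, V ⊆ V₁ ∧
      (∀ θ, InF V ∅ θ → le θ₁ θ → InF V₁ ∅ θ) ∧
      (∀ (θ θ' : Fin n → ℤ) (b s : ℕ), 0 < b → θ' = (b : ℤ) • θ - (s : ℤ) • θ₁ →
        InF V₁ ∅ θ' → le θ θ') ∧
      (InF V₁ ∅ (-θ₁) → ∀ θ, InF V₁ ∅ θ → le θ (-θ₁)))
    (htop : ∀ V ∈ AA, ∀ L ⊆ V, ∀ θ, InF V L θ → NZ D θ →
      (∀ η, InF V L η → NZ D η → le θ η → le η θ) → rk (Tight V θ) + 2 ≤ rk D → ∀ η, le η θ) :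
    ∀ (c : ℕ), ∀ V ∈ AA, ∀ L ⊆ V, rk D ≤ rk L + c → ∀ θ : ℕ → (Fin n → ℤ),
      (∀ i, InF V L (θ i) ∧ NZ D (θ i)) → (∀ i, le (θ i) (θ (i + 1))) →
      ∃ θ', (InF V L θ' ∧ NZ D θ') ∧ ∀ i, le (θ i) θ' := by
  classical
  intro c
  induction c with
  | zero =>
    intro V hV L hL hrk θ hθ _
    exfalso
    have h1 := hLIN1 n D L (θ 0) (fun w hw => ⟨(hfin V hV).2 w (hL hw), (hθ 0).1.2 w hw⟩) (hθ 0).2
    omega
  | succ c ih =>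
    intro V hV L hL hrk θ hθ hch
    have hmono : ∀ i j, i ≤ j → le (θ i) (θ j) := by
      intro i j hij
      induction j, hij using Nat.le_induction with
      | base => exact hrefl _
      | succ j _ ihj => exact htrans _ _ _ ihj (hch j)
    have hVe : ∀ i, InF V ∅ (θ i) := fun i => ⟨(hθ i).1.1, fun w hw => absurd hw (Set.notMem_empty w)⟩
    obtain ⟨V₁, hV₁, hVV, hp1, hp2, hp3⟩ := hpush V hV (θ 0) (hVe 0) (hθ 0).2
    have hθ₁ : ∀ i, InF V₁ ∅ (θ i) := fun i => hp1 _ (hVe i) (hmono 0 i (Nat.zero_le i))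
    by_cases hA : ∀ w ∈ V₁, θ 0 ⬝ᵥ w = 0
    · -- the opposite functional
      have h1 : InF V₁ ∅ (-θ 0) :=
        ⟨fun w hw => by rw [neg_dotProduct, hA w hw, neg_zero],
          fun w hw => absurd hw (Set.notMem_empty w)⟩
      refine ⟨-θ 0, ⟨⟨fun w hw => by rw [neg_dotProduct, hA w (hVV hw), neg_zero],
        fun w hw => by rw [neg_dotProduct, (hθ 0).1.2 w hw, neg_zero]⟩, ?_⟩,
        fun i => hp3 h1 _ (hθ₁ i)⟩
      obtain ⟨w, hw, hw0⟩ := (hθ 0).2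
      exact ⟨w, hw, by rw [neg_dotProduct, neg_ne_zero]; exact hw0⟩
    push Not at hA
    obtain ⟨w₀, hw₀, hw₀'⟩ := hA
    have hPfin : {w | w ∈ V₁ ∧ 0 < θ 0 ⬝ᵥ w}.Finite := (hfin V₁ hV₁).1.subset fun w hw => hw.1
    have hPne : {w | w ∈ V₁ ∧ 0 < θ 0 ⬝ᵥ w}.Nonempty :=
      ⟨w₀, hw₀, lt_of_le_of_ne ((hθ₁ 0).1 w₀ hw₀) (Ne.symm hw₀')⟩
    have hmin : ∀ i, ∃ w ∈ V₁, 0 < θ 0 ⬝ᵥ w ∧ ∀ w' ∈ V₁, 0 < θ 0 ⬝ᵥ w' →
        (θ i ⬝ᵥ w) * (θ 0 ⬝ᵥ w') ≤ (θ i ⬝ᵥ w') * (θ 0 ⬝ᵥ w) := by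
      intro i
      obtain ⟨w, ⟨hw1, hw2⟩, hw3⟩ := Set.exists_min_image _
        (fun w => ((θ i ⬝ᵥ w : ℤ) : ℚ) / ((θ 0 ⬝ᵥ w : ℤ) : ℚ)) hPfin hPne
      refine ⟨w, hw1, hw2, fun w' hw1' hw2' => ?_⟩
      have h1 := hw3 w' ⟨hw1', hw2'⟩
      have h2 : (0 : ℚ) < ((θ 0 ⬝ᵥ w : ℤ) : ℚ) := by exact_mod_cast hw2
      have h3 : (0 : ℚ) < ((θ 0 ⬝ᵥ w' : ℤ) : ℚ) := by exact_mod_cast hw2'
      rw [div_le_div_iff₀ h2 h3] at h1
      exact_mod_cast h1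
    choose W hW1 hW2 hW3 using hmin
    let θ' : ℕ → (Fin n → ℤ) := fun i => (θ 0 ⬝ᵥ W i) • θ i - (θ i ⬝ᵥ W i) • θ 0
    have hθ'w : ∀ i w, θ' i ⬝ᵥ w = (θ 0 ⬝ᵥ W i) * (θ i ⬝ᵥ w) - (θ i ⬝ᵥ W i) * (θ 0 ⬝ᵥ w) := by
      intro i w
      simp only [θ', sub_dotProduct, smul_dotProduct, smul_eq_mul]
    have hθ'F : ∀ i, InF V₁ ∅ (θ' i) := by
      intro i
      refine ⟨fun w hw => ?_, fun w hw => absurd hw (Set.notMem_empty w)⟩
      rw [hθ'w]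
      rcases eq_or_lt_of_le ((hθ₁ 0).1 w hw) with h1 | h1
      · rw [← h1, mul_zero, sub_zero]
        exact mul_nonneg (hW2 i).le ((hθ₁ i).1 w hw)
      · have := hW3 i w hw h1
        linarith
    have hθ'L : ∀ i, ∀ w ∈ L, θ' i ⬝ᵥ w = 0 := by
      intro i w hw
      rw [hθ'w, (hθ i).1.2 w hw, (hθ 0).1.2 w hw]
      ring
    have hle' : ∀ i, le (θ i) (θ' i) := by
      intro i
      have h1 : ((θ 0 ⬝ᵥ W i).toNat : ℤ) = θ 0 ⬝ᵥ W i := Int.toNat_of_nonneg (hW2 i).le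
      have h2 : ((θ i ⬝ᵥ W i).toNat : ℤ) = θ i ⬝ᵥ W i :=
        Int.toNat_of_nonneg ((hθ₁ i).1 _ (hW1 i))
      refine hp2 (θ i) (θ' i) (θ 0 ⬝ᵥ W i).toNat (θ i ⬝ᵥ W i).toNat ?_ ?_ (hθ'F i)
      · have := hW2 i
        omega
      · rw [h1, h2]
    by_cases hB : ∀ N, ∃ i ≥ N, ¬ NZ D (θ' i)
    · -- infinitely many functionals are multiples of the first one
      refine ⟨θ 0, hθ 0, fun j => ?_⟩
      obtain ⟨i, hij, hi⟩ := hB j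
      refine htrans _ _ _ (hmono j i hij) ?_
      unfold NZ at hi
      push Not at hi
      have h0 : θ i ⬝ᵥ W i ≠ 0 := by
        intro h0
        obtain ⟨w, hw, hw'⟩ := (hθ i).2
        have := hi w hw
        rw [hθ'w, h0, zero_mul, sub_zero] at this
        rcases mul_eq_zero.1 this with h | h
        · exact absurd h (hW2 i).ne'
        · exact hw' h
      have h1 : ((θ 0 ⬝ᵥ W i).toNat : ℤ) = θ 0 ⬝ᵥ W i := Int.toNat_of_nonneg (hW2 i).le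
      have h2 : ((θ i ⬝ᵥ W i).toNat : ℤ) = θ i ⬝ᵥ W i :=
        Int.toNat_of_nonneg ((hθ₁ i).1 _ (hW1 i))
      have h3 := hW2 i
      have h4 := (hθ₁ i).1 _ (hW1 i)
      refine hscale _ _ (θ 0 ⬝ᵥ W i).toNat (θ i ⬝ᵥ W i).toNat (by omega) (by omega) ?_
      intro w hw
      have := hi w hw
      rw [hθ'w] at this
      rw [h1, h2]
      linarith
    push Not at hB
    obtain ⟨N, hN⟩ := hB
    have hTV : ∀ η, Tight V₁ η ⊆ V₁ := fun η w hw => hw.1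
    have hmax : ∀ i : ℕ, ∃ η, (InF V₁ (Tight V₁ (θ' (N + i))) η ∧ NZ D η) ∧
        le (θ' (N + i)) η ∧ ∀ ζ, (InF V₁ (Tight V₁ (θ' (N + i))) ζ ∧ NZ D ζ) → le η ζ → le ζ η := by
      intro i
      have hNZ := hN (N + i) (Nat.le_add_right N i)
      have hr1 : rk L < rk (Tight V₁ (θ' (N + i))) := by
        refine hLIN1 n _ L (θ 0) (fun w hw => ⟨Or.inl ⟨hVV (hL hw), hθ'L _ w hw⟩,
          (hθ 0).1.2 w hw⟩) ⟨W (N + i), ⟨hW1 _, ?_⟩, (hW2 _).ne'⟩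
        rw [hθ'w]
        ring
      have hb := ih V₁ hV₁ (Tight V₁ (θ' (N + i))) (hTV _) (by omega)
      exact CHAIN_max htrans hrefl (fun η => InF V₁ (Tight V₁ (θ' (N + i))) η ∧ NZ D η) hb
        (θ' (N + i)) ⟨⟨(hθ'F _).1, fun w hw => hw.2⟩, hNZ⟩
    choose τ hτ1 hτ2 hτ3 using hmax
    have hτF : ∀ i, InF V L (τ i) ∧ NZ D (τ i) := by
      intro i
      refine ⟨⟨fun w hw => (hτ1 i).1.1 w (hVV hw), fun w hw => ?_⟩, (hτ1 i).2⟩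
      exact (hτ1 i).1.2 w ⟨hVV (hL hw), hθ'L _ w hw⟩
    have hleτ : ∀ i j, j ≤ N + i → le (θ j) (τ i) := fun i j hij =>
      htrans _ _ _ (hmono j _ hij) (htrans _ _ _ (hle' _) (hτ2 i))
    by_cases hC : ∃ i, rk (Tight V₁ (τ i)) + 2 ≤ rk D
    · obtain ⟨i, hi⟩ := hC
      exact ⟨τ i, hτF i, fun j => htop V₁ hV₁ _ (hTV _) (τ i) (hτ1 i).1 (hτ1 i).2
        (fun η h1 h2 h3 => hτ3 i η ⟨h1, h2⟩ h3) hi (θ j)⟩
    push Not at hC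
    -- pigeonhole for the tight sets
    haveI : Finite ↥V₁ := (hfin V₁ hV₁).1
    obtain ⟨T, hT⟩ := Finite.exists_infinite_fiber
      (fun i : ℕ => {w : ↥V₁ | τ i ⬝ᵥ (w : Fin n → ℤ) = 0})
    have hT' : (((fun i : ℕ => {w : ↥V₁ | τ i ⬝ᵥ (w : Fin n → ℤ) = 0}) ⁻¹' {T})).Infinite :=
      Set.infinite_coe_iff.1 hT
    obtain ⟨i₀, hi₀⟩ := hT'.nonempty
    have hTight : ∀ i j, {w : ↥V₁ | τ i ⬝ᵥ (w : Fin n → ℤ) = 0} =
        {w : ↥V₁ | τ j ⬝ᵥ (w : Fin n → ℤ) = 0} → Tight V₁ (τ i) = Tight V₁ (τ j) := by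
      intro i j hij
      ext w
      constructor
      · rintro ⟨h1, h2⟩
        have : (⟨w, h1⟩ : ↥V₁) ∈ {w : ↥V₁ | τ i ⬝ᵥ (w : Fin n → ℤ) = 0} := h2
        rw [hij] at this
        exact ⟨h1, this⟩
      · rintro ⟨h1, h2⟩
        have : (⟨w, h1⟩ : ↥V₁) ∈ {w : ↥V₁ | τ j ⬝ᵥ (w : Fin n → ℤ) = 0} := h2
        rw [← hij] at this
        exact ⟨h1, this⟩
    have hprop : ∀ i j, Tight V₁ (τ i) = Tight V₁ (τ j) → ∃ (a : ℤ) (b : ℕ), a ≠ 0 ∧ 0 < b ∧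
        ∀ w ∈ D, a * (τ i ⬝ᵥ w) = b * (τ j ⬝ᵥ w) := by
      intro i j hij
      refine hLIN3 n D (Tight V₁ (τ i)) (τ i) (τ j) (fun w hw => (hfin V₁ hV₁).2 w hw.1)
        (fun w hw => hw.2) (fun w hw => ?_) (hτ1 i).2 (hτ1 j).2 ?_
      · rw [hij] at hw
        exact hw.2
      · have := hC i
        omega
    obtain ⟨w₁, hw₁, hw₁'⟩ := (hτ1 i₀).2
    -- pigeonhole for the signs
    have hsplit : ({i | i ∈ ((fun i : ℕ => {w : ↥V₁ | τ i ⬝ᵥ (w : Fin n → ℤ) = 0}) ⁻¹' {T}) ∧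
        0 < τ i ⬝ᵥ w₁}).Infinite ∨
        ({i | i ∈ ((fun i : ℕ => {w : ↥V₁ | τ i ⬝ᵥ (w : Fin n → ℤ) = 0}) ⁻¹' {T}) ∧
        ¬ 0 < τ i ⬝ᵥ w₁}).Infinite := by
      by_contra hcon
      push Not at hcon
      apply hT'
      refine (hcon.1.union hcon.2).subset ?_
      intro i hi
      by_cases h : 0 < τ i ⬝ᵥ w₁
      · exact Or.inl ⟨hi, h⟩
      · exact Or.inr ⟨hi, not_lt.1 h⟩
    obtain ⟨I, hI, hI1, hI2⟩ : ∃ I : Set ℕ, I.Infinite ∧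
        (∀ i ∈ I, {w : ↥V₁ | τ i ⬝ᵥ (w : Fin n → ℤ) = 0} = T) ∧
        ((∀ i ∈ I, 0 < τ i ⬝ᵥ w₁) ∨ ∀ i ∈ I, τ i ⬝ᵥ w₁ < 0) := by
      rcases hsplit with h | h
      · exact ⟨_, h, fun i hi => hi.1, Or.inl fun i hi => hi.2⟩
      · refine ⟨_, h, fun i hi => hi.1, Or.inr fun i hi => ?_⟩
        obtain ⟨a, b, ha, hb, hab⟩ := hprop i i₀ (hTight _ _ (hi.1.trans hi₀.symm))
        have h1 := hab w₁ hw₁
        have h2 : τ i ⬝ᵥ w₁ ≠ 0 := by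
          intro h2
          rw [h2, mul_zero] at h1
          rcases mul_eq_zero.1 h1.symm with h3 | h3
          · omega
          · exact hw₁' h3
        have h3 := hi.2
        omega
    obtain ⟨i₁, hi₁⟩ := hI.nonempty
    refine ⟨τ i₁, hτF i₁, fun j => ?_⟩
    obtain ⟨i, hi, hij⟩ := hI.exists_gt j
    refine htrans _ _ _ (hleτ i j (by omega)) ?_
    obtain ⟨a, b, ha, hb, hab⟩ := hprop i i₁ (hTight _ _ ((hI1 i hi).trans (hI1 i₁ hi₁).symm))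
    have ha' : 0 < a := by
      have h1 := hab w₁ hw₁
      have hb' : (0 : ℤ) < b := by exact_mod_cast hb
      rcases hI2 with h2 | h2
      · have h3 := h2 i hi
        have h4 := h2 i₁ hi₁
        have h5 : 0 < a * (τ i ⬝ᵥ w₁) := by rw [h1]; exact mul_pos hb' h4
        exact pos_of_mul_pos_left h5 h3.le
      · have h3 := h2 i hi
        have h4 := h2 i₁ hi₁
        have h5 : a * (τ i ⬝ᵥ w₁) < 0 := by rw [h1]; exact mul_neg_of_pos_of_neg hb' h4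
        by_contra hcon
        push Not at hcon
        have := mul_nonneg_of_nonpos_of_nonpos hcon h3.le
        omega
    refine hscale _ _ a.toNat b (by omega) hb fun w hw => ?_
    rw [Int.toNat_of_nonneg ha'.le]
    exact hab w hw

theorem s_CHAIN (hLIN1 : S_LIN1) (hLIN3 : S_LIN3) : S_CHAIN := by
  intro n D le AA hrefl htrans hscale hfin hpush htop V hV L hL θ hθ hθD
  have hb := CHAIN_main hLIN1 hLIN3 hrefl htrans hscale hfin hpush htop (rk D) V hV L hL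
    (Nat.le_add_left _ _)
  obtain ⟨θ', h1, h2, h3⟩ := CHAIN_max htrans hrefl (fun η => InF V L η ∧ NZ D η) hb θ ⟨hθ, hθD⟩
  exact ⟨θ', h1.1, h1.2, h2, fun η h4 h5 h6 => h3 η ⟨h4, h5⟩ h6⟩

end Pool.Agent.H51.MF
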