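import Pool.Agent.H51.MF.Base

set_option linter.style.haveILetI false
set_option linter.unusedSectionVars false
set_option autoImplicit false

namespace Pool.Agent.H51.MF

open Module Pool.Agent.H51.T2

universe u v

variable {K : Type v} [Field K] {A : Type u} [Ring A] [Algebra K A]

/-- The maps considered in Lemma I. -/
structure LIG (f₁ : TC K A) (N₁ : FM K A) (g : TC K A) : Prop where
  rig : Rigid g.f
  tt : ∀ X : FM K A, TT f₁.f X → TT g.f X
  ck : TT f₁.f g.C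
  hh : ¬ HH g.f N₁

theorem LI_exists [FiniteDimensional K A] (hK : Infinite K) (hHR : HR K A)
    (hSTAR : S_STAR K A) (f₁ : TC K A) (N₁ : FM K A) (hf : Rigid f₁.f) (hN : InW f₁ N₁)
    (hnt : Nontrivial N₁) : ∃ g : TC K A, LIG f₁ N₁ g := by
  let RA : FM K A := { C := A }
  haveI : Module.Projective A RA := (inferInstance : Module.Projective A A)
  let h : TC K A := { P := FM.zero, Q := RA, hP := projective_punit, f := 0 }
  obtain ⟨N, g, hg, hc, hcl, htt⟩ := hSTAR hK hHR f₁ h hf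
  refine ⟨g, hg, fun X hX => htt X hX fun k => ⟨0, ?_⟩, EZero.tt hc.1, fun hh => ?_⟩
  · ext x
    rw [show x = 0 from rfl, map_zero, map_zero]
  · have h1 := hh_cl hh
    rw [hcl, inW_cl hN, mul_zero, zero_add] at h1
    have h2 : hd (FM.zero : FM K A) N₁ = 0 := by
      haveI : Subsingleton ((FM.zero : FM K A) →ₗ[A] N₁) := ⟨fun a b => by
        ext x
        rw [show x = 0 from rfl, map_zero, map_zero]⟩
      exact Module.finrank_zero_of_subsingleton
    have h3 : (hd RA N₁ : ℤ) ≤ 0 := by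
      have h4 : h.cl N₁ = (hd RA N₁ : ℤ) - hd (FM.zero : FM K A) N₁ := rfl
      rw [h4, h2] at h1
      simpa using h1
    have h5 : hd RA N₁ = 0 := by omega
    haveI : FiniteDimensional K (RA →ₗ[A] N₁) := finite_hom
    have h6 : Subsingleton (RA →ₗ[A] N₁) := Module.finrank_zero_iff.1 h5
    obtain ⟨x, hx⟩ := exists_ne (0 : N₁)
    have h7 := Subsingleton.elim (LinearMap.toSpanSingleton A N₁ x : RA →ₗ[A] N₁) 0
    have h8 := LinearMap.congr_fun h7 (1 : A)
    simp only [LinearMap.toSpanSingleton_apply, one_smul, LinearMap.zero_apply] at h8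
    exact hx h8

theorem LI_range_simple {f₁ : TC K A} {N X : FM K A} (hN : SimW f₁ N) (hX : TT f₁.f X)
    (φ : X →ₗ[A] N) (h0 : φ ≠ 0) : Function.Surjective φ := by
  rcases hN.2.2 _ (inW_range hX hN.1 φ) with h | h
  · exact absurd (LinearMap.range_eq_bot.1 h) h0
  · exact LinearMap.range_eq_top.1 h

/-- A map onto both factors is onto the product of two simple objects which are not isomorphic. -/
theorem LI_onto {f₁ : TC K A} {N N₁ X : FM K A} (hN : SimW f₁ N) (hN₁ : SimW f₁ N₁)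
    (hne : ¬ Nonempty (N ≃ₗ[A] N₁)) (hX : TT f₁.f X) (p₁ : X →ₗ[A] N₁) (p₂ : X →ₗ[A] N)
    (h1 : p₁ ≠ 0) (h2 : p₂ ≠ 0) : Function.Surjective (p₁.prod p₂) := by
  have s1 := LI_range_simple hN₁ hX p₁ h1
  have s2 := LI_range_simple hN hX p₂ h2
  have k1 : TT f₁.f (X.sub (LinearMap.ker p₁)) := hX.ker hN₁.1.2
  have k2 : TT f₁.f (X.sub (LinearMap.ker p₂)) := hX.ker hN.1.2
  by_cases c1 : p₁ ∘ₗ (LinearMap.ker p₂).subtype = 0
  · by_cases c2 : p₂ ∘ₗ (LinearMap.ker p₁).subtype = 0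
    · exfalso
      apply hne
      have e : LinearMap.ker p₁ = LinearMap.ker p₂ := by
        apply le_antisymm
        · intro x hx
          exact LinearMap.congr_fun c2 ⟨x, hx⟩
        · intro x hx
          exact LinearMap.congr_fun c1 ⟨x, hx⟩
      exact ⟨(LinearMap.quotKerEquivOfSurjective p₂ s2).symm.trans
        ((Submodule.quotEquivOfEq _ _ e.symm).trans (LinearMap.quotKerEquivOfSurjective p₁ s1))⟩
    · have s3 : Function.Surjective (p₂ ∘ₗ (LinearMap.ker p₁).subtype) :=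
        LI_range_simple (X := X.sub (LinearMap.ker p₁)) hN k1 _ c2
      rintro ⟨x, y⟩
      obtain ⟨a, ha⟩ := s1 x
      obtain ⟨b, hb⟩ := s3 (y - p₂ a)
      refine ⟨a + b, ?_⟩
      have hb' : p₂ (b : X) = y - p₂ a := hb
      have hb0 : p₁ (b : X) = 0 := b.2
      ext
      · simp [ha, hb0]
      · simp [hb']
  · have s3 : Function.Surjective (p₁ ∘ₗ (LinearMap.ker p₂).subtype) :=
      LI_range_simple (X := X.sub (LinearMap.ker p₂)) hN₁ k2 _ c1
    rintro ⟨x, y⟩
    obtain ⟨a, ha⟩ := s2 y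
    obtain ⟨b, hb⟩ := s3 (x - p₁ a)
    refine ⟨a + b, ?_⟩
    have hb' : p₁ (b : X) = x - p₁ a := hb
    have hb0 : p₂ (b : X) = 0 := b.2
    ext
    · simp [hb']
    · simp [ha, hb0]

theorem s_LI (K : Type v) [Field K] (A : Type u) [Ring A] [Algebra K A] (hSTAR : S_STAR K A)
    (hFIT : S_FIT K A) (hCLS : S_CLS K A) : S_LI K A := by
  classical
  intro hK hA hHR c f₁ N₁ hf hN₁
  haveI := hA
  have hex : ∃ n, ∃ g : TC K A, LIG f₁ N₁ g ∧ g.size = n := by
    obtain ⟨g, hg⟩ := LI_exists hK hHR hSTAR f₁ N₁ hf hN₁.1 hN₁.2.1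
    exact ⟨_, g, hg, rfl⟩
  obtain ⟨g, hg, hsize⟩ := Nat.find_spec hex
  have hmin : ∀ g' : TC K A, LIG f₁ N₁ g' → g.size ≤ g'.size := by
    intro g' hg'
    rw [hsize]
    exact Nat.find_min' hex ⟨g', hg', rfl⟩
  obtain ⟨η, hη⟩ := (hCLS c).1 g
  refine ⟨η, ?_, fun N hN hne => ?_⟩
  · rw [← hη N₁]
    have h1 := tt_cl (hg.tt N₁ hN₁.1.1)
    refine lt_of_le_of_ne h1 fun h2 => hg.hh (hh_of_tt (hg.tt N₁ hN₁.1.1) h2.symm)
  rw [← hη N]
  have hT := hg.tt N hN.1.1
  suffices HH g.f N from inW_cl ⟨hT, this⟩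
  by_contra hcon
  have hh := hg.hh
  unfold HH at hcon hh
  push Not at hcon hh
  obtain ⟨p₁, hp₁, hp₁0⟩ := hh
  obtain ⟨p₂, hp₂, hp₂0⟩ := hcon
  have r1 : LinearMap.range g.f ≤ LinearMap.ker p₁ := by
    rintro _ ⟨x, rfl⟩
    exact LinearMap.congr_fun hp₁ x
  have r2 : LinearMap.range g.f ≤ LinearMap.ker p₂ := by
    rintro _ ⟨x, rfl⟩
    exact LinearMap.congr_fun hp₂ x
  let q₁ : g.C →ₗ[A] N₁ := (LinearMap.range g.f).liftQ p₁ r1
  let q₂ : g.C →ₗ[A] N := (LinearMap.range g.f).liftQ p₂ r2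
  have hq₁ : ∀ x, q₁ ((LinearMap.range g.f).mkQ x) = p₁ x := fun x => by simp [q₁]
  have hq₂ : ∀ x, q₂ ((LinearMap.range g.f).mkQ x) = p₂ x := fun x => by simp [q₂]
  have hq₁0 : q₁ ≠ 0 := by
    intro h
    apply hp₁0
    ext x
    rw [← hq₁, h]
    rfl
  have hq₂0 : q₂ ≠ 0 := by
    intro h
    apply hp₂0
    ext x
    rw [← hq₂, h]
    rfl
  have hsurj : Function.Surjective (q₁.prod q₂) := LI_onto hN hN₁ hne hg.ck q₁ q₂ hq₁0 hq₂0
  have hHH : HH f₁.f (N₁.prod N) := (inW_prod hN₁.1 hN.1).2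
  have hker : TT g.f (g.C.sub (LinearMap.ker (q₁.prod q₂))) :=
    hg.tt _ (TT.ker (φ := q₁.prod q₂) hg.ck hHH)
  -- the endomorphism
  obtain ⟨l, hl⟩ := Module.projective_lifting_property (q₁.prod q₂)
    ((LinearMap.inl A N₁ N) ∘ₗ p₁) hsurj
  have hlx : ∀ x, (q₁ (l x), q₂ (l x)) = (p₁ x, (0 : N)) := fun x => by
    have := LinearMap.congr_fun hl x
    simpa using this
  have hk : ∀ x, (l ∘ₗ g.f) x ∈ LinearMap.ker (q₁.prod q₂) := by
    intro x
    rw [LinearMap.mem_ker]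
    have h1 := hlx (g.f x)
    have h2 : p₁ (g.f x) = 0 := LinearMap.congr_fun hp₁ x
    rw [h2] at h1
    exact h1
  obtain ⟨m, hm⟩ := hker (LinearMap.codRestrict _ (l ∘ₗ g.f) hk)
  let l' : g.Q →ₗ[A] g.C := l - (LinearMap.ker (q₁.prod q₂)).subtype ∘ₗ m
  have hl'f : l' ∘ₗ g.f = 0 := by
    ext x
    have := congrArg Subtype.val (LinearMap.congr_fun hm x)
    simp only [LinearMap.codRestrict_apply, LinearMap.comp_apply] at this
    simp [l', this]
  have hl'1 : ∀ x, q₁ (l' x) = p₁ x := by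
    intro x
    have h1 : (q₁.prod q₂) (m x : g.C) = 0 := (m x).2
    have h2 : q₁ (m x : g.C) = 0 := congrArg Prod.fst h1
    have h3 : q₁ (l x) = p₁ x := congrArg Prod.fst (hlx x)
    show q₁ (l x - (m x : g.C)) = p₁ x
    rw [map_sub, h2, h3, sub_zero]
  have hl'2 : ∀ x, q₂ (l' x) = 0 := by
    intro x
    have h1 : (q₁.prod q₂) (m x : g.C) = 0 := (m x).2
    have h2 : q₂ (m x : g.C) = 0 := congrArg Prod.snd h1
    have h3 : q₂ (l x) = 0 := congrArg Prod.snd (hlx x)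
    show q₂ (l x - (m x : g.C)) = 0
    rw [map_sub, h2, h3, sub_zero]
  obtain ⟨t, ht⟩ := Module.projective_lifting_property (LinearMap.range g.f).mkQ l'
    (Submodule.mkQ_surjective _)
  have htr : ∀ x, (t ∘ₗ g.f) x ∈ LinearMap.range g.f := by
    intro x
    rw [← Submodule.Quotient.mk_eq_zero]
    have h1 := LinearMap.congr_fun ht (g.f x)
    have h2 := LinearMap.congr_fun hl'f x
    exact h1.trans h2
  obtain ⟨s, hs⟩ := Module.projective_lifting_property g.f.rangeRestrict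
    (LinearMap.codRestrict (LinearMap.range g.f) (t ∘ₗ g.f) htr) g.f.surjective_rangeRestrict
  have hst : g.f ∘ₗ s = t ∘ₗ g.f := by
    ext x
    exact congrArg Subtype.val (LinearMap.congr_fun hs x)
  have htq : ∀ x, (LinearMap.range g.f).mkQ (t x) = l' x := fun x => LinearMap.congr_fun ht x
  have ht1 : ∀ x, p₁ (t x) = p₁ x := fun x => by
    rw [← hq₁ (t x), htq, hl'1]
  have ht2 : ∀ x, p₂ (t x) = 0 := fun x => by
    rw [← hq₂ (t x), htq, hl'2]
  obtain ⟨k, g₀, g₁, eP, eQ, he, hpow, hsz, -, hbij⟩ := hFIT g s t hst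
  have hiso : Iso g.f (g₀.add g₁).f := ⟨eP, eQ, by
    ext x
    · exact (congrArg Prod.fst (he x)).symm
    · exact (congrArg Prod.snd (he x)).symm⟩
  have hg₀ : g₀.size ≠ 0 := by
    intro h0
    obtain ⟨-, hb⟩ := hbij h0
    apply hp₂0
    ext x
    obtain ⟨y, rfl⟩ := hb.2 x
    rw [ht2, LinearMap.zero_apply]
  have hpk : ∀ (j : ℕ) (x : g.Q), p₁ ((t ^ j) x) = p₁ x := by
    intro j
    induction j with
    | zero => intro x; rfl
    | succ j ih =>
      intro x
      rw [pow_succ, Module.End.mul_apply, ih, ht1]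
  have hG : LIG f₁ N₁ g₁ := by
    have hr : Rigid (g₀.add g₁).f := hg.rig.iso hiso
    refine ⟨EZero.of_prod_left_snd (EZero.of_prod_right_snd hr), fun X hX =>
      (tt_addTC.1 (tt_isoTC hiso (hg.tt X hX))).2, ?_, fun hh => ?_⟩
    · -- the cokernel is a quotient
      let ψ : g.Q →ₗ[A] g₁.C :=
        (LinearMap.range g₁.f).mkQ ∘ₗ LinearMap.snd A g₀.Q g₁.Q ∘ₗ eQ.toLinearMap
      have hψ : LinearMap.range g.f ≤ LinearMap.ker ψ := by
        rintro _ ⟨x, rfl⟩
        rw [LinearMap.mem_ker]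
        show (LinearMap.range g₁.f).mkQ (eQ (g.f x)).2 = 0
        rw [he]
        exact (Submodule.Quotient.mk_eq_zero _).2 ⟨_, rfl⟩
      refine hg.ck.surj (π := (LinearMap.range g.f).liftQ ψ hψ) ?_
      intro y
      obtain ⟨z, rfl⟩ := Submodule.mkQ_surjective _ y
      refine ⟨(LinearMap.range g.f).mkQ (eQ.symm (0, z)), ?_⟩
      rw [Submodule.mkQ_apply, Submodule.liftQ_apply]
      show (LinearMap.range g₁.f).mkQ (eQ (eQ.symm (0, z))).2 = _
      rw [LinearEquiv.apply_symm_apply]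
    · have h1 := hh (p₁ ∘ₗ eQ.symm.toLinearMap ∘ₗ LinearMap.inr A g₀.Q g₁.Q) (by
        ext y
        have h2 := he (eP.symm (0, y))
        rw [LinearEquiv.apply_symm_apply] at h2
        have h3 : eQ.symm (0, g₁.f y) = g.f (eP.symm (0, y)) := by
          rw [LinearEquiv.symm_apply_eq, h2]
          simp
        show p₁ (eQ.symm (0, g₁.f y)) = 0
        rw [h3]
        exact LinearMap.congr_fun hp₁ _)
      apply hp₁0
      ext x
      rw [← hpk k x]
      have h2 : (t ^ k) x = eQ.symm (0, (eQ ((t ^ k) x)).2) := by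
        rw [LinearEquiv.eq_symm_apply]
        ext
        · exact hpow x
        · rfl
      rw [h2]
      exact LinearMap.congr_fun h1 _
  have := hmin g₁ hG
  omega

end Pool.Agent.H51.MF
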