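import Pool.Agent.H51.MF.Base

/-! # All torsion classes `⊥Y` are functorially finite -/

set_option linter.style.haveILetI false
set_option linter.unusedSectionVars false
set_option autoImplicit false

namespace Pool.Agent.H51.MF

open Module Pool.Agent.H51.T2

universe u v

/-- PF: the objects without maps to `Y` are the objects `X` with `TT g X`, for a rigid `g`. -/
def S_PF (K : Type v) [Field K] (A : Type u) [Ring A] [Algebra K A] : Prop :=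
  Infinite K → FiniteDimensional K A → HR K A →
  ∀ (c : Coo K A) (f₀ : TC K A) (Y : FM K A), Rigid f₀.f → InW f₀ Y →
  ∃ (g : TC K A) (θ : Fin c.n → ℤ), Rz c f₀ g θ ∧
    ∀ X : FM K A, InW f₀ X → (TT g.f X ↔ ∀ φ : X →ₗ[A] Y, φ = 0)

theorem PF_quotBot {K : Type v} [Field K] {A : Type u} [Ring A] [Algebra K A] (X : FM K A) :
    Nonempty (X.quot ⊥ ≃ₗ[A] X) :=
  ⟨Submodule.quotEquivOfEqBot ⊥ rfl⟩

theorem s_PF (K : Type v) [Field K] (A : Type u) [Ring A] [Algebra K A]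
    (hPP : S_PP K A) (hSM : S_SM K A) (hREAL : S_REAL K A)
    (hNUM : S_NUM K A) (hLSUB : S_LSUB K A) (hLIN1 : S_LIN1)
    (hFINV : S_FINV K A) : S_PF K A := by
  intro hK hA hHR c
  suffices H : ∀ (r : ℕ) (f₀ : TC K A) (Y : FM K A), rk (WV c f₀) = r → Rigid f₀.f → InW f₀ Y →
      ∃ (g : TC K A) (θ : Fin c.n → ℤ), Rz c f₀ g θ ∧
        ∀ X : FM K A, InW f₀ X → (TT g.f X ↔ ∀ φ : X →ₗ[A] Y, φ = 0) from
    fun f₀ Y => H _ f₀ Y rfl
  intro r
  induction r using Nat.strong_induction_on with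
  | _ r ih =>
  intro f₀ Y hr hf₀ hY
  by_cases hr0 : r = 0
  · -- all objects are zero
    obtain ⟨g, hg⟩ := hREAL hK hHR c f₀ 0 hf₀
    refine ⟨g, 0, hg, fun X hX => ?_⟩
    have hX0 : Subsingleton X := by
      rw [← not_nontrivial_iff_subsingleton]
      intro hnt
      have h1 := v_ne_zero c X hnt
      rw [hr0] at hr
      unfold rk at hr
      have h2 : Submodule.span ℚ ((fun (w : Fin c.n → ℤ) (i : Fin c.n) => (w i : ℚ)) ''
          (WV c f₀)) = ⊥ := by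
        rw [← Submodule.finrank_eq_zero]
        exact hr
      rw [Submodule.span_eq_bot] at h2
      have h3 := h2 _ ⟨c.v X, ⟨X, hX, rfl⟩, rfl⟩
      apply h1
      funext i
      have := congrFun h3 i
      simpa using this
    refine ⟨fun _ φ => ?_, fun _ => ?_⟩
    · ext x
      rw [Subsingleton.elim x 0, map_zero, map_zero]
    · exact (inW_of_subsingleton (g := g) (X := X)).1
  obtain ⟨η, hηN, hηF, hηB⟩ := hPP hK hA hHR c f₀ Y hf₀ hY (by omega)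
  obtain ⟨g₁, hg₁⟩ := hREAL hK hHR c f₀ η hf₀
  have hYH : HH g₁.f Y := (hNUM c f₀ g₁ η Y hf₀ hg₁ hY).2.2 hηF
  have hf₁ : Rigid (f₀.add g₁).f := rigid_addTC hf₀ hg₁.rig hg₁.comp
  have hη0 : ∀ w ∈ WV c (f₀.add g₁), η ⬝ᵥ w = 0 := by
    rintro w ⟨X, hX, rfl⟩
    obtain ⟨h1, h2, h3⟩ := inW_addTC.1 hX
    rw [← hg₁.cl X h1]
    exact inW_cl ⟨h2, h3⟩
  have hrk1 : rk (WV c (f₀.add g₁)) < r := by
    rw [← hr]
    refine hLIN1 _ _ _ η ?_ hηN
    rintro w hw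
    refine ⟨Or.inl ?_, hη0 w hw⟩
    obtain ⟨X, hX, rfl⟩ := hw
    exact ⟨X, (inW_addTC.1 hX).1, rfl⟩
  obtain ⟨U, hU1, hU2⟩ := hLSUB (f₀.add g₁) Y
  have hUW : InW (f₀.add g₁) (Y.sub U) := by
    obtain ⟨h1, h2⟩ := tt_addTC.1 hU1
    exact inW_addTC.2 ⟨inW_sub_of_tt hY h1, h2, hh_sub hYH U⟩
  obtain ⟨g₂, θ₂, hg₂, hB₂⟩ := ih _ hrk1 (f₀.add g₁) (Y.sub U) rfl hf₁ hUW
  -- large multiple
  -- the bound
  obtain ⟨M₁, hM₁⟩ : ∃ M : ℕ, ∀ m : ℕ, M ≤ m → ∀ S : Submodule A Y, InW f₀ (Y.sub S) →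
      η ⬝ᵥ c.v (Y.sub S) < 0 → ((m : ℤ) • η + θ₂) ⬝ᵥ c.v (Y.sub S) < 0 := by
    obtain ⟨M, hM⟩ : ∃ M : ℕ, ∀ w ∈ {w | ∃ S : Submodule A Y, w = c.v (Y.sub S)},
        θ₂ ⬝ᵥ w < M := by
      obtain ⟨h1, -⟩ := hFINV c Y
      obtain ⟨B, hB⟩ := (h1.image (fun w => θ₂ ⬝ᵥ w)).bddAbove
      refine ⟨(B + 1).toNat, fun w hw => ?_⟩
      have := hB ⟨w, hw, rfl⟩
      have h2 := Int.self_le_toNat (B + 1)
      simp only at this
      omega
    refine ⟨M, fun m hm S hS h0 => ?_⟩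
    have h1 := hM _ ⟨S, rfl⟩
    rw [add_dotProduct, smul_dotProduct, smul_eq_mul]
    have h2 : (m : ℤ) * (η ⬝ᵥ c.v (Y.sub S)) ≤ (m : ℤ) * (-1) :=
      mul_le_mul_of_nonneg_left (by omega) (by positivity)
    have h3 : (M : ℤ) ≤ m := by exact_mod_cast hm
    linarith
  obtain ⟨M₂, hM₂⟩ := hSM c f₀ g₁ η θ₂ hf₀ hg₁
  set m := max M₁ M₂ with hm
  obtain ⟨g, hg⟩ := hREAL hK hHR c f₀ ((m : ℤ) • η + θ₂) hf₀
  refine ⟨g, _, hg, fun X hX => ?_⟩
  rw [(hNUM c f₀ g _ X hf₀ hg hX).1]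
  constructor
  · intro hT φ
    have hI : InW f₀ (Y.sub (LinearMap.range φ)) := inW_range hX.1 hY φ
    let e : X.quot (LinearMap.ker φ) ≃ₗ[A] Y.sub (LinearMap.range φ) := φ.quotKerEquivRange
    have h1 := hT (LinearMap.ker φ) (inW_iso e.symm hI)
    rw [v_iso c e] at h1
    have h2 := hηF _ hI
    have h3 : η ⬝ᵥ c.v (Y.sub (LinearMap.range φ)) = 0 := by
      by_contra hne
      have := hM₁ m (le_max_left _ _) _ hI (lt_of_le_of_ne h2 hne)
      omega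
    have h4 : HH g₁.f (Y.sub (LinearMap.range φ)) := hh_sub hYH _
    have h5 : InW (f₀.add g₁) (Y.sub (LinearMap.range φ)) := by
      refine inW_addTC.2 ⟨hI, tt_of_hh h4 ?_, h4⟩
      rw [hg₁.cl _ hI, h3]
    have h6 : LinearMap.range φ ≤ U := hU2 _ h5.1
    have h7 : TT g₂.f (Y.sub (LinearMap.range φ)) := by
      rw [(hNUM c (f₀.add g₁) g₂ θ₂ _ hf₁ hg₂ h5).1]
      intro S hS
      have hS₀ : InW f₀ ((Y.sub (LinearMap.range φ)).quot S) := (inW_addTC.1 hS).1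
      have e2 : X.quot (LinearMap.ker (S.mkQ ∘ₗ φ.rangeRestrict)) ≃ₗ[A]
          (Y.sub (LinearMap.range φ)).quot S :=
        quotKer X ((Y.sub (LinearMap.range φ)).quot S) (S.mkQ ∘ₗ φ.rangeRestrict)
          ((Submodule.mkQ_surjective S).comp φ.surjective_rangeRestrict)
      have h8 := hT _ (inW_iso e2.symm hS₀)
      rw [v_iso c e2, add_dotProduct, smul_dotProduct, hη0 _ ⟨_, hS, rfl⟩, smul_zero,
        zero_add] at h8
      exact h8
    have h8 := (hB₂ _ h5).1 h7 (Submodule.inclusion h6)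
    ext x
    have h9 := LinearMap.congr_fun h8 ⟨φ x, ⟨x, rfl⟩⟩
    have h10 := congrArg Subtype.val h9
    simpa using h10
  · intro hφ
    have hB : Bp f₀ Y X := ⟨hX, hφ⟩
    refine hM₂ m (le_max_right _ _) X hX (hηB X hB) fun T hT => ?_
    have h1 : ∀ ψ : X.quot T →ₗ[A] Y.sub U, ψ = 0 := by
      intro ψ
      have h2 := hφ (U.subtype ∘ₗ ψ ∘ₗ T.mkQ)
      apply LinearMap.ext
      intro x
      obtain ⟨y, rfl⟩ := Submodule.mkQ_surjective T x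
      have h3 := LinearMap.congr_fun h2 y
      apply Subtype.ext
      simpa using h3
    have h2 := (hB₂ _ hT).2 h1
    rw [← hg₂.cl _ hT]
    exact tt_cl h2

end Pool.Agent.H51.MF
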