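import Pool.Agent.H51.MF.Base

set_option linter.style.haveILetI false
set_option linter.unusedSectionVars false
set_option autoImplicit false

namespace Pool.Agent.H51.MF

open Module Pool.Agent.H51.T2

universe u v

theorem s_SIM (K : Type v) [Field K] (A : Type u) [Ring A] [Algebra K A] : S_SIM K A := by
  intro f₁ X hX hnt
  haveI : IsNoetherian A X := isNoetherian_of_tower K inferInstance
  haveI : IsArtinian A X := isArtinian_of_tower K inferInstance
  constructor
  · obtain ⟨S, ⟨hS1, hS2⟩, hS3⟩ := WellFounded.has_min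
      (wellFounded_lt (α := Submodule A X)) {S | S ≠ ⊥ ∧ InW f₁ (X.sub S)}
      ⟨⊤, top_ne_bot, inW_iso (Y := X.sub ⊤) (Submodule.topEquiv (R := A) (M := X)).symm hX⟩
    refine ⟨X.sub S, S.subtype, ⟨hS2, ?_, fun T hT => ?_⟩, Submodule.injective_subtype S⟩
    · exact Submodule.nontrivial_iff_ne_bot.2 hS1
    · by_contra hcon
      push Not at hcon
      have h1 : InW f₁ (X.sub (T.map S.subtype)) := inW_iso (subSub X S T) hT
      have h2 : T.map S.subtype ≠ ⊥ := by
        intro h
        apply hcon.1
        rw [eq_bot_iff]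
        intro x hx
        have : (x : X) ∈ T.map S.subtype := ⟨x, hx, rfl⟩
        rw [h] at this
        exact Subtype.ext this
      refine hS3 _ ⟨h2, h1⟩ (lt_of_le_of_ne (Submodule.map_subtype_le S T) fun h => ?_)
      apply hcon.2
      rw [eq_top_iff]
      intro x _
      have h3 : (x : X) ∈ T.map S.subtype := by rw [h]; exact x.2
      obtain ⟨y, hy, hyx⟩ := h3
      have : y = x := Subtype.ext hyx
      rwa [← this]
  · obtain ⟨S, ⟨hS1, hS2⟩, hS3⟩ := WellFounded.has_min
      (wellFounded_gt (α := Submodule A X)) {S | S ≠ ⊤ ∧ InW f₁ (X.sub S)}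
      ⟨⊥, bot_ne_top, inW_bot X⟩
    have hQ : InW f₁ (X.quot S) := inW_quot_of_sub hX hS2
    refine ⟨X.quot S, S.mkQ, ⟨hQ, ?_, fun T hT => ?_⟩, Submodule.mkQ_surjective S⟩
    · exact Submodule.Quotient.nontrivial_iff.2 hS1
    · by_contra hcon
      push Not at hcon
      have h0 : InW f₁ ((X.quot S).quot T) := inW_quot_of_sub hQ hT
      have h1 : InW f₁ (X.quot (T.comap S.mkQ)) := inW_iso (quotQuot X S T) h0
      have h2 : InW f₁ (X.sub (T.comap S.mkQ)) := inW_sub_of_quot hX h1
      refine hS3 (T.comap S.mkQ) ⟨?_, h2⟩ (lt_of_le_of_ne ?_ ?_)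
      · intro h
        apply hcon.2
        rw [eq_top_iff]
        intro y _
        obtain ⟨x, rfl⟩ := Submodule.mkQ_surjective S y
        have : x ∈ T.comap S.mkQ := by rw [h]; trivial
        exact this
      · intro x hx
        rw [Submodule.mem_comap]
        have : S.mkQ x = 0 := (Submodule.Quotient.mk_eq_zero S).2 hx
        rw [this]
        exact T.zero_mem
      · intro h
        apply hcon.1
        rw [eq_bot_iff]
        intro y hy
        obtain ⟨x, rfl⟩ := Submodule.mkQ_surjective S y
        have h3 : x ∈ S := by rw [h]; exact hy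
        exact (Submodule.Quotient.mk_eq_zero S).2 h3

end Pool.Agent.H51.MF
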