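import Pool.Agent.H51.MF.Final
import Pool.Agent.H51.MF.PF
import Pool.Agent.H65.MF.LIN1
import Pool.Agent.H65.MF.LIN2
import Pool.Agent.H83.MF.LIN3
import Pool.Agent.H83.MF.LIN4
import Pool.Agent.H51.MF.CHAIN
import Pool.Agent.H4.MF.COORD
import Pool.Agent.H4.MF.CLS
import Pool.Agent.H46.MF.DIM
import Pool.Agent.H24.MF.STAR
import Pool.Agent.H33.MF.FIT
import Pool.Agent.H83.MF.SPL
import Pool.Agent.H83.MF.NAK
import Pool.Agent.H83.MF.PO
import Pool.Agent.H83.MF.LSUB
import Pool.Agent.H34.MF.NUM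
import Pool.Agent.H87.MF.REAL
import Pool.Agent.H87.MF.TBN
import Pool.Agent.H24.MF.TRC
import Pool.Agent.H34.MF.PUSH
import Pool.Agent.H50.MF.SM
import Pool.Agent.H15.MF.FINV
import Pool.Agent.H95.MF.CS
import Pool.Agent.H51.MF.SIM
import Pool.Agent.H88.MF.TI
import Pool.Agent.H50.MF.LD
import Pool.Agent.H51.MF.LI
import Pool.Agent.H14.MF.LT
import Pool.Agent.H33.MF.CM
import Pool.Agent.H33.MF.MAX
import Pool.Agent.H46.MF.ONE
import Pool.Agent.H47.MF.PP1
import Pool.Agent.H62.MF.PP2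
import Pool.Agent.H14.MF.PP
import Pool.Agent.H47.MF.POSF
import Pool.Agent.H95.MF.DICH
import Pool.Agent.H12.MF.DET
import Pool.Agent.H50.MF.BRK

/-! # Assembly -/

set_option linter.style.haveILetI false
set_option linter.unusedSectionVars false
set_option autoImplicit false

namespace Pool.Agent.H51.MF

open Module Pool.Agent.H51.T2

universe u v

/-- All modules together. -/
theorem main_all (K : Type v) [Field K] (A : Type u) [Ring A] [Algebra K A] :
    S_COORD K A ∧ S_BRK K A ∧ S_PF K A ∧ S_PP K A ∧ S_REAL K A ∧ S_CLS K A := by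
  have hLIN1 : S_LIN1 := s_LIN1
  have hLIN2 : S_LIN2 := s_LIN2
  have hLIN3 : S_LIN3 := s_LIN3
  have hLIN4 : S_LIN4 := s_LIN4
  have hCHAIN : S_CHAIN := s_CHAIN hLIN1 hLIN3
  have hCOORD : S_COORD K A := s_COORD K A
  have hCLS : S_CLS K A := s_CLS K A
  have hDIM : S_DIM K A := s_DIM K A
  have hSTAR : S_STAR K A := s_STAR K A
  have hFIT : S_FIT K A := s_FIT K A
  have hSPL : S_SPL K A := s_SPL K A
  have hNAK : S_NAK K A := s_NAK K A
  have hPO : S_PO K A := s_PO K A
  have hLSUB : S_LSUB K A := s_LSUB K A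
  have hNUM : S_NUM K A := s_NUM K A
  have hREAL : S_REAL K A := s_REAL K A hSTAR hCLS
  have hTBN : S_TBN K A := s_TBN K A
  have hTRC : S_TRC K A := s_TRC K A
  have hPUSH : S_PUSH K A := s_PUSH K A hTBN hTRC
  have hSM : S_SM K A := s_SM K A hTBN hTRC hNUM
  have hFINV : S_FINV K A := s_FINV K A
  have hCS : S_CS K A := s_CS K A
  have hSIM : S_SIM K A := s_SIM K A
  have hTI : S_TI K A := s_TI K A hCS hNUM
  have hLD : S_LD K A := s_LD K A hNAK hPO
  have hLI : S_LI K A := s_LI K A hSTAR hFIT hCLS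
  have hLT : S_LT K A := s_LT K A hFIT hSPL hREAL hNUM hLD hCLS
  have hCM : S_CM K A := s_CM K A hLIN2 hLIN4 hCS hTI hLI hSM hLT hREAL hFINV
  have hMAX : S_MAX K A := s_MAX K A hCHAIN hCM hPUSH hTRC hREAL hNUM hFINV hTBN
  have hONE : S_ONE K A := s_ONE K A hLI
  have hPP1 : S_PP1 K A := s_PP1 K A hONE hSIM hDIM
  have hPP2 : S_PP2 K A := s_PP2 K A hMAX hLT hSM hREAL hNUM hLSUB hLIN1 hLIN2 hLIN4 hFINV hDIM
  have hPP : S_PP K A := s_PP K A hPP1 hPP2
  have hPOSF : S_POSF K A := s_POSF K A hDIM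
  have hDICH : S_DICH K A := s_DICH K A hPP hREAL hNUM hLSUB hPOSF hFINV
  have hDET : S_DET K A := s_DET K A hNUM hCLS
  have hBRK : S_BRK K A := s_BRK K A hDICH hONE hSIM hDET hFINV hLIN1
  have hPF : S_PF K A := s_PF K A hPP hSM hREAL hNUM hLSUB hLIN1 hFINV
  exact ⟨hCOORD, hBRK, hPF, hPP, hREAL, hCLS⟩

/-- All lattice points rigid: finitely many bricks of bounded dimension. -/
theorem main_bricks (K : Type v) [Field K] [Infinite K] (A : Type u) [Ring A] [Algebra K A]
    [FiniteDimensional K A]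
    (hR : ∀ (P Q : Type u) [AddCommGroup P] [Module A P] [AddCommGroup Q] [Module A Q]
      [Module.Finite A P] [Module.Finite A Q] [Module.Projective A P] [Module.Projective A Q],
      ∃ f : P →ₗ[A] Q, Rigid f) (m : ℕ) :
    ∃ L : List (ModuleCat.{u} A), ∀ (M : Type u) [AddCommGroup M] [Module K M] [Module A M]
      [IsScalarTower K A M] [Module.Finite K M], Nontrivial M →
      (∀ φ : M →ₗ[A] M, φ ≠ 0 → Function.Bijective φ) → finrank K M ≤ m →
      ∃ X ∈ L, Nonempty (M ≃ₗ[A] X) := by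
  obtain ⟨h1, h2, -⟩ := main_all K A
  exact bricks_of_rigid K A h1 h2 hR m

/-- All lattice points rigid: the modules without maps to `Y`. -/
theorem main_perp (K : Type v) [Field K] [Infinite K] (A : Type u) [Ring A] [Algebra K A]
    [FiniteDimensional K A]
    (hR : ∀ (P Q : Type u) [AddCommGroup P] [Module A P] [AddCommGroup Q] [Module A Q]
      [Module.Finite A P] [Module.Finite A Q] [Module.Projective A P] [Module.Projective A Q],
      ∃ f : P →ₗ[A] Q, Rigid f) (Y : Type u) [AddCommGroup Y] [Module K Y] [Module A Y]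
      [IsScalarTower K A Y] [Module.Finite K Y] : ∃ g : TC K A, Rigid g.f ∧
      ∀ (X : Type u) [AddCommGroup X] [Module K X] [Module A X] [IsScalarTower K A X]
      [Module.Finite K X], TT g.f X ↔ ∀ φ : X →ₗ[A] Y, φ = 0 := by
  have hHR : HR K A := by
    intro P Q _ _
    haveI : Module.Finite A P := Module.Finite.of_restrictScalars_finite K A P
    haveI : Module.Finite A Q := Module.Finite.of_restrictScalars_finite K A Q
    exact hR P Q
  obtain ⟨h1, -, h3, -⟩ := main_all K A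
  obtain ⟨c⟩ := h1 inferInstance
  have h0 : Rigid (TC.zero : TC K A).f := fun h => ⟨0, 0, by
    ext x⟩
  obtain ⟨g, θ, hg, hg2⟩ := h3 inferInstance inferInstance hHR c TC.zero { C := Y } h0 (inW_zero _)
  exact ⟨g, hg.rig, fun X _ _ _ _ _ => hg2 { C := X } (inW_zero _)⟩

end Pool.Agent.H51.MF
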