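import Pool.Agent.H51.MF.Stmts

/-! # Base: additivity, isomorphisms, closure properties. -/

set_option linter.style.haveILetI false
set_option linter.unusedSectionVars false
set_option autoImplicit false

namespace Pool.Agent.H51.MF

open Module Pool.Agent.H51.T2

universe u v

variable {K : Type v} [Field K] {A : Type u} [Ring A] [Algebra K A]

/-- Restriction of scalars for module isomorphisms of finite-dimensional modules. -/
noncomputable def kEquiv {X Y : FM K A} (e : X ≃ₗ[A] Y) : X ≃ₗ[K] Y := e.restrictScalars K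

section iso

variable {X Y : FM K A}

theorem hd_iso (P : FM K A) (e : X ≃ₗ[A] Y) : hd P X = hd P Y := by
  refine LinearEquiv.finrank_eq
    { toFun := fun φ => e.toLinearMap ∘ₗ φ
      invFun := fun φ => e.symm.toLinearMap ∘ₗ φ
      map_add' := fun φ ψ => by ext x; simp
      map_smul' := fun c φ => by
        ext x
        exact (kEquiv e).map_smul c (φ x)
      left_inv := fun φ => by ext x; simp
      right_inv := fun φ => by ext x; simp }

theorem v_iso (c : Coo K A) (e : X ≃ₗ[A] Y) : c.v X = c.v Y := by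
  funext i
  simp only [Coo.v, hd_iso _ e]

theorem cl_iso (g : TC K A) (e : X ≃ₗ[A] Y) : g.cl X = g.cl Y := by
  simp only [TC.cl, hd_iso _ e]

theorem hh_congr {P Q M N : Type*} [AddCommGroup P] [Module A P] [AddCommGroup Q] [Module A Q]
    [AddCommGroup M] [Module A M] [AddCommGroup N] [Module A N] {f : P →ₗ[A] Q} (h : HH f M)
    (e : M ≃ₗ[A] N) : HH f N :=
  h.of_inj (ι := e.symm.toLinearMap) e.symm.injective

theorem inW_iso {g : TC K A} (e : X ≃ₗ[A] Y) (h : InW g X) : InW g Y :=
  ⟨h.1.congr e, hh_congr h.2 e⟩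

/-- Corresponding submodules of isomorphic modules. -/
noncomputable def subMap (e : X ≃ₗ[A] Y) (S : Submodule A Y) :
    X.sub (S.comap e.toLinearMap) ≃ₗ[A] Y.sub S :=
  LinearEquiv.ofBijective
    (LinearMap.codRestrict S (e.toLinearMap ∘ₗ (S.comap e.toLinearMap).subtype) (fun x => x.2))
    ⟨fun x y hxy => Subtype.ext (e.injective (congrArg Subtype.val hxy)), fun y =>
      ⟨⟨e.symm y, by simp⟩, Subtype.ext (e.apply_symm_apply _)⟩⟩

/-- Corresponding quotients of isomorphic modules. -/
noncomputable def quotMap (e : X ≃ₗ[A] Y) (S : Submodule A Y) :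
    X.quot (S.comap e.toLinearMap) ≃ₗ[A] Y.quot S :=
  Submodule.Quotient.equiv _ _ e (by
    exact Submodule.map_comap_eq_of_surjective e.surjective S)

theorem tbN_iso {c : Coo K A} {f₀ : TC K A} {η : Fin c.n → ℤ} (e : X ≃ₗ[A] Y)
    (h : TbN c f₀ η X) : TbN c f₀ η Y := by
  intro S hS
  have h1 := h (S.comap e.toLinearMap) (inW_iso (quotMap e S).symm hS)
  rwa [v_iso c (quotMap e S)] at h1

theorem fbN_iso {c : Coo K A} {f₀ : TC K A} {η : Fin c.n → ℤ} (e : X ≃ₗ[A] Y)
    (h : FbN c f₀ η X) : FbN c f₀ η Y := by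
  intro S hS
  have h1 := h (S.comap e.toLinearMap) (inW_iso (subMap e S).symm hS)
  rwa [v_iso c (subMap e S)] at h1

theorem simW_iso {g : TC K A} (e : X ≃ₗ[A] Y) (h : SimW g X) : SimW g Y := by
  obtain ⟨h1, h2, h3⟩ := h
  refine ⟨inW_iso e h1, e.symm.toEquiv.nontrivial, fun S hS => ?_⟩
  rcases h3 _ (inW_iso (subMap e S).symm hS) with h4 | h4
  · left
    rw [eq_bot_iff]
    intro y hy
    have : e.symm y ∈ S.comap e.toLinearMap := by simpa using hy
    rw [h4, Submodule.mem_bot] at this
    rw [Submodule.mem_bot]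
    exact (LinearEquiv.map_eq_zero_iff e.symm).1 this
  · right
    rw [eq_top_iff]
    intro y _
    have : e.symm y ∈ S.comap e.toLinearMap := by rw [h4]; trivial
    simpa using this

end iso

section additivity

/-- `dim Hom (P, -)` is additive for projective `P`. -/
theorem hd_add (P : FM K A) [Module.Projective A P] (X : FM K A) (S : Submodule A X) :
    hd P X = hd P (X.sub S) + hd P (X.quot S) := by
  have i1 : FiniteDimensional K (P →ₗ[A] X) := finite_hom
  let φ : (P →ₗ[A] X) →ₗ[K] (P →ₗ[A] (X.quot S)) := compB K P X (X.quot S) S.mkQ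
  have hφ : Function.Surjective φ := fun k => by
    obtain ⟨k', hk'⟩ := Module.projective_lifting_property S.mkQ k (Submodule.mkQ_surjective _)
    exact ⟨k', hk'⟩
  have h1 := LinearMap.finrank_range_add_finrank_ker φ
  rw [LinearMap.range_eq_top.2 hφ, finrank_top] at h1
  let ψ : (P →ₗ[A] (X.sub S)) →ₗ[K] (P →ₗ[A] X) := compB K P (X.sub S) X S.subtype
  have hψ : Function.Injective ψ := by
    intro a b hab
    ext x
    exact LinearMap.congr_fun hab x
  have h2 : LinearMap.range ψ = LinearMap.ker φ := by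
    ext k
    constructor
    · rintro ⟨l, rfl⟩
      rw [LinearMap.mem_ker]
      ext x
      show S.mkQ (S.subtype (l x)) = 0
      exact (Submodule.Quotient.mk_eq_zero S).2 (l x).2
    · intro hk
      rw [LinearMap.mem_ker] at hk
      have h3 : ∀ x, k x ∈ S := fun x => by
        have := LinearMap.congr_fun hk x
        exact (Submodule.Quotient.mk_eq_zero S).1 this
      exact ⟨LinearMap.codRestrict S k h3, by ext x; rfl⟩
  have h3 : finrank K (LinearMap.range ψ) = finrank K (P →ₗ[A] (X.sub S)) :=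
    LinearMap.finrank_range_of_inj hψ
  rw [← h2, h3] at h1
  simp only [hd]
  exact (h1.symm.trans (add_comm _ _))

theorem v_add (c : Coo K A) (X : FM K A) (S : Submodule A X) :
    c.v X = c.v (X.sub S) + c.v (X.quot S) := by
  funext i
  haveI := c.proj i
  simp only [Coo.v, Pi.add_apply]
  exact_mod_cast hd_add (c.E i) X S

theorem cl_add (g : TC K A) (X : FM K A) (S : Submodule A X) :
    g.cl X = g.cl (X.sub S) + g.cl (X.quot S) := by
  have h1 := hd_add g.P X S
  have h2 := hd_add g.Q X S
  simp only [TC.cl, h1, h2]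
  push_cast
  ring

theorem v_nonneg (c : Coo K A) (X : FM K A) (i : Fin c.n) : 0 ≤ c.v X i := by
  simp [Coo.v]

theorem hd_zero (P X : FM K A) [Subsingleton X] : hd P X = 0 := by
  haveI : Subsingleton (P →ₗ[A] X) := ⟨fun a b => by ext x; exact Subsingleton.elim _ _⟩
  exact Module.finrank_zero_of_subsingleton

theorem v_zero (c : Coo K A) (X : FM K A) [Subsingleton X] : c.v X = 0 := by
  funext i
  simp [Coo.v, hd_zero]

/-- A nonzero module has a nonzero dimension vector. -/
theorem v_ne_zero [FiniteDimensional K A] (c : Coo K A) (X : FM K A) (hX : Nontrivial X) :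
    c.v X ≠ 0 := by
  intro h
  let P : FM K A := { C := A }
  haveI : Module.Projective A P := inferInstanceAs (Module.Projective A A)
  obtain ⟨a, ha⟩ := c.full P
  have h1 : hd P X = 0 := by
    rw [ha]
    refine Finset.sum_eq_zero fun i _ => ?_
    have := congrFun h i
    simp only [Coo.v, Pi.zero_apply, Nat.cast_eq_zero] at this
    rw [this, mul_zero]
  haveI : FiniteDimensional K (P →ₗ[A] X) := finite_hom
  have h2 : Subsingleton (P →ₗ[A] X) := Module.finrank_zero_iff.1 h1
  obtain ⟨x, hx⟩ := exists_ne (0 : X)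
  have h3 := Subsingleton.elim (LinearMap.toSpanSingleton A X x : P →ₗ[A] X) 0
  have h4 := LinearMap.congr_fun h3 (1 : A)
  simp only [LinearMap.toSpanSingleton_apply, one_smul, LinearMap.zero_apply] at h4
  exact hx h4

theorem hd_prod (P P' X : FM K A) : hd (P.prod P') X = hd P X + hd P' X := by
  haveI : FiniteDimensional K (P →ₗ[A] X) := finite_hom
  haveI : FiniteDimensional K (P' →ₗ[A] X) := finite_hom
  rw [hd, hd, hd, ← Module.finrank_prod]
  exact (LinearEquiv.finrank_eq (LinearMap.coprodEquiv K)).symm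

theorem cl_addTC (g h : TC K A) (X : FM K A) : (g.add h).cl X = g.cl X + h.cl X := by
  simp only [TC.cl, hd_prod]
  push_cast
  ring

theorem tt_cl {g : TC K A} {X : FM K A} (h : TT g.f X) : 0 ≤ g.cl X := by
  have := h.le K
  simp only [TC.cl, hd]
  omega

theorem hh_cl {g : TC K A} {X : FM K A} (h : HH g.f X) : g.cl X ≤ 0 := by
  haveI : FiniteDimensional K (g.P →ₗ[A] X) := finite_hom
  have := LinearMap.finrank_le_finrank_of_injective ((hh_iff K).1 h)
  simp only [TC.cl, hd]
  omega

theorem inW_cl {g : TC K A} {X : FM K A} (h : InW g X) : g.cl X = 0 :=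
  le_antisymm (hh_cl h.2) (tt_cl h.1)

theorem hh_of_tt {g : TC K A} {X : FM K A} (h : TT g.f X) (h0 : g.cl X = 0) : HH g.f X := by
  refine h.hh K ?_
  simp only [TC.cl, hd] at h0
  omega

theorem tt_of_hh {g : TC K A} {X : FM K A} (h : HH g.f X) (h0 : g.cl X = 0) : TT g.f X := by
  haveI : FiniteDimensional K (g.Q →ₗ[A] X) := finite_hom
  haveI : FiniteDimensional K (g.P →ₗ[A] X) := finite_hom
  rw [tt_iff K]
  refine (LinearMap.injective_iff_surjective_of_finrank_eq_finrank ?_).1 ((hh_iff K).1 h)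
  simp only [TC.cl, hd] at h0
  omega

end additivity

section closure

variable {g : TC K A} {X Y : FM K A}

theorem tt_quot (h : TT g.f X) (S : Submodule A X) : TT g.f (X.quot S) :=
  h.surj (π := S.mkQ) (Submodule.mkQ_surjective _)

theorem hh_sub (h : HH g.f X) (S : Submodule A X) : HH g.f (X.sub S) :=
  h.of_inj (ι := S.subtype) (Submodule.injective_subtype S)

theorem tt_ext {S : Submodule A X} (h : TT g.f (X.sub S)) (h' : TT g.f (X.quot S)) :
    TT g.f X := by
  intro k
  obtain ⟨l, hl⟩ := h' (S.mkQ ∘ₗ k)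
  obtain ⟨l', hl'⟩ := Module.projective_lifting_property S.mkQ l (Submodule.mkQ_surjective _)
  have h1 : ∀ x, (k - l' ∘ₗ g.f) x ∈ S := by
    intro x
    rw [← Submodule.Quotient.mk_eq_zero]
    have h2 := LinearMap.congr_fun hl x
    have h3 := LinearMap.congr_fun hl' (g.f x)
    simp only [LinearMap.comp_apply, Submodule.mkQ_apply] at h2 h3
    simp only [LinearMap.sub_apply, LinearMap.comp_apply, Submodule.Quotient.mk_sub, h2, h3,
      sub_self]
  obtain ⟨m, hm⟩ := h (LinearMap.codRestrict S _ h1)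
  refine ⟨l' + S.subtype ∘ₗ m, ?_⟩
  ext x
  have h2 := congrArg Subtype.val (LinearMap.congr_fun hm x)
  simp only [LinearMap.codRestrict_apply, LinearMap.sub_apply, LinearMap.comp_apply] at h2
  simp only [LinearMap.comp_apply, LinearMap.add_apply, Submodule.subtype_apply, ← h2]
  abel

theorem hh_ext {S : Submodule A X} (h : HH g.f (X.sub S)) (h' : HH g.f (X.quot S)) :
    HH g.f X := by
  intro l hl
  have h1 := h' (S.mkQ ∘ₗ l) (by rw [LinearMap.comp_assoc, hl, LinearMap.comp_zero])
  have h2 : ∀ x, l x ∈ S := fun x => (Submodule.Quotient.mk_eq_zero S).1 (LinearMap.congr_fun h1 x)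
  have h3 := h (LinearMap.codRestrict S l h2) (by
    ext x
    exact LinearMap.congr_fun hl x)
  ext x
  exact congrArg Subtype.val (LinearMap.congr_fun h3 x)

theorem inW_ext {S : Submodule A X} (h : InW g (X.sub S)) (h' : InW g (X.quot S)) : InW g X :=
  ⟨tt_ext h.1 h'.1, hh_ext h.2 h'.2⟩

/-- A submodule of an object is an object if `TT` holds. -/
theorem inW_sub_of_tt (h : InW g X) {S : Submodule A X} (hS : TT g.f (X.sub S)) :
    InW g (X.sub S) := ⟨hS, hh_sub h.2 S⟩

theorem inW_quot_of_sub (h : InW g X) {S : Submodule A X} (hS : InW g (X.sub S)) :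
    InW g (X.quot S) := ⟨tt_quot h.1 S, h.2.quot hS.1⟩

theorem inW_sub_of_quot (h : InW g X) {S : Submodule A X} (hS : InW g (X.quot S)) :
    InW g (X.sub S) := by
  refine ⟨?_, hh_sub h.2 S⟩
  have h1 : TT g.f (LinearMap.ker S.mkQ) := h.1.ker (φ := S.mkQ) hS.2
  exact h1.congr (LinearEquiv.ofEq _ _ (Submodule.ker_mkQ S))

/-- The image of a map from a module in `TT` to an object. -/
theorem inW_range (hX : TT g.f X) (hY : InW g Y) (φ : X →ₗ[A] Y) :
    InW g (Y.sub (LinearMap.range φ)) :=
  ⟨hX.surj (π := φ.rangeRestrict) φ.surjective_rangeRestrict, hh_sub hY.2 _⟩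

theorem inW_ker (hX : InW g X) (hY : InW g Y) (φ : X →ₗ[A] Y) :
    InW g (X.sub (LinearMap.ker φ)) := ⟨hX.1.ker hY.2, hh_sub hX.2 _⟩

theorem inW_of_subsingleton [Subsingleton X] : InW g X :=
  ⟨fun k => ⟨0, by ext x; exact Subsingleton.elim _ _⟩, fun l _ => by
    ext x; exact Subsingleton.elim _ _⟩

theorem inW_bot (X : FM K A) : InW g (X.sub ⊥) := inW_of_subsingleton

theorem inW_prod (hX : InW g X) (hY : InW g Y) : InW g (X.prod Y) := by
  constructor
  · intro k
    obtain ⟨l, hl⟩ := hX.1 (LinearMap.fst A X Y ∘ₗ k)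
    obtain ⟨l', hl'⟩ := hY.1 (LinearMap.snd A X Y ∘ₗ k)
    refine ⟨l.prod l', ?_⟩
    ext x
    · exact LinearMap.congr_fun hl x
    · exact LinearMap.congr_fun hl' x
  · intro l hl
    have h1 := hX.2 (LinearMap.fst A X Y ∘ₗ l) (by rw [LinearMap.comp_assoc, hl, LinearMap.comp_zero])
    have h2 := hY.2 (LinearMap.snd A X Y ∘ₗ l) (by rw [LinearMap.comp_assoc, hl, LinearMap.comp_zero])
    ext x
    · exact LinearMap.congr_fun h1 x
    · exact LinearMap.congr_fun h2 x

theorem inW_pow (hX : InW g X) (k : ℕ) : InW g (X.pow k) := by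
  constructor
  · exact hX.1.pi (Fin k)
  · intro l hl
    ext x i
    have h1 := hX.2 (LinearMap.proj i ∘ₗ l) (by
      rw [LinearMap.comp_assoc, hl, LinearMap.comp_zero])
    exact LinearMap.congr_fun h1 x

theorem inW_zero (X : FM K A) : InW (TC.zero : TC K A) X :=
  ⟨fun k => ⟨0, by
    ext x
    rw [show x = 0 from rfl, map_zero, map_zero]⟩, fun l _ => by
    ext x
    rw [show x = 0 from rfl, map_zero, map_zero]⟩

end closure

section nested

/-- A submodule of a submodule. -/
noncomputable def subSub (X : FM K A) (S : Submodule A X) (T : Submodule A S) :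
    (X.sub S).sub T ≃ₗ[A] X.sub (T.map S.subtype) :=
  Submodule.equivMapOfInjective S.subtype (Submodule.injective_subtype S) T

/-- A submodule below another one. -/
noncomputable def subLe (X : FM K A) (T S : Submodule A X) (h : T ≤ S) :
    (X.sub S).sub (T.comap S.subtype) ≃ₗ[A] X.sub T :=
  Submodule.comapSubtypeEquivOfLe h

/-- A quotient of a quotient. -/
noncomputable def quotQuot (X : FM K A) (S : Submodule A X) (T : Submodule A (X ⧸ S)) :
    (X.quot S).quot T ≃ₗ[A] X.quot (T.comap S.mkQ) :=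
  (LinearEquiv.ofBijective
    (Submodule.mapQ (T.comap S.mkQ) T S.mkQ le_rfl)
    ⟨by
      rw [← LinearMap.ker_eq_bot, LinearMap.ker_eq_bot']
      intro m hm
      obtain ⟨x, rfl⟩ := Submodule.Quotient.mk_surjective _ m
      rw [Submodule.mapQ_apply, Submodule.Quotient.mk_eq_zero] at hm
      exact (Submodule.Quotient.mk_eq_zero _).2 hm,
    fun y => by
      obtain ⟨y', rfl⟩ := Submodule.Quotient.mk_surjective _ y
      obtain ⟨x, rfl⟩ := Submodule.mkQ_surjective S y'
      exact ⟨Submodule.Quotient.mk x, Submodule.mapQ_apply _ _ _ _⟩⟩).symm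

/-- A surjective map gives a quotient. -/
noncomputable def quotKer (X Y : FM K A) (φ : X →ₗ[A] Y) (hφ : Function.Surjective φ) :
    X.quot (LinearMap.ker φ) ≃ₗ[A] Y :=
  LinearMap.quotKerEquivOfSurjective φ hφ

end nested

section sums

variable {g h f₀ : TC K A} {X : FM K A}

theorem tt_addTC : TT (g.add h).f X ↔ TT g.f X ∧ TT h.f X :=
  ⟨fun h1 => ⟨h1.of_prod_fst, h1.of_prod_snd⟩, fun h1 => h1.1.prod h1.2⟩

theorem hh_addTC : HH (g.add h).f X ↔ HH g.f X ∧ HH h.f X := by
  constructor
  · intro h1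
    constructor
    · intro l hl
      have h2 := h1 (l ∘ₗ LinearMap.fst A g.Q h.Q) (by
        ext x
        · exact LinearMap.congr_fun hl x
        · simp)
      ext x
      have := LinearMap.congr_fun h2 (x, 0)
      simpa using this
    · intro l hl
      have h2 := h1 (l ∘ₗ LinearMap.snd A g.Q h.Q) (by
        ext x
        · simp
        · exact LinearMap.congr_fun hl x)
      ext x
      have := LinearMap.congr_fun h2 (0, x)
      simpa using this
  · rintro ⟨h1, h2⟩ l hl
    have h3 := h1 (l ∘ₗ LinearMap.inl A g.Q h.Q) (by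
      ext x
      have := LinearMap.congr_fun hl (x, 0)
      simpa using this)
    have h4 := h2 (l ∘ₗ LinearMap.inr A g.Q h.Q) (by
      ext x
      have := LinearMap.congr_fun hl (0, x)
      simpa using this)
    refine LinearMap.prod_ext ?_ ?_
    · rw [h3]; ext x; simp
    · rw [h4]; ext x; simp

theorem inW_addTC : InW (f₀.add g) X ↔ InW f₀ X ∧ TT g.f X ∧ HH g.f X := by
  rw [InW, InW, tt_addTC, hh_addTC]
  tauto

theorem rigid_addTC (h₀ : Rigid f₀.f) (h₁ : Rigid g.f) (h₂ : Comp f₀ g) :
    Rigid (f₀.add g).f :=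
  EZero.prod_left (EZero.prod_right h₀ h₂.1) (EZero.prod_right h₂.2 h₁)

theorem tt_isoTC (e : Iso g.f h.f) (hX : TT g.f X) : TT h.f X := hX.iso e

theorem hh_isoTC (e : Iso g.f h.f) (hX : HH g.f X) : HH h.f X := by
  obtain ⟨α, β, hab⟩ := e
  intro l hl
  have h1 := hX (l ∘ₗ β.toLinearMap) (by
    rw [LinearMap.comp_assoc, ← hab, ← LinearMap.comp_assoc, hl, LinearMap.zero_comp])
  ext x
  have := LinearMap.congr_fun h1 (β.symm x)
  simpa using this

theorem cl_isoTC (e : Iso g.f h.f) : g.cl X = h.cl X := by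
  obtain ⟨α, β, _⟩ := e
  have h1 : hd g.P X = hd h.P X := LinearEquiv.finrank_eq
    { toFun := fun φ => φ ∘ₗ α.symm.toLinearMap
      invFun := fun φ => φ ∘ₗ α.toLinearMap
      map_add' := fun φ ψ => by ext x; simp
      map_smul' := fun c φ => by ext x; simp
      left_inv := fun φ => by ext x; simp
      right_inv := fun φ => by ext x; simp }
  have h2 : hd g.Q X = hd h.Q X := LinearEquiv.finrank_eq
    { toFun := fun φ => φ ∘ₗ β.symm.toLinearMap
      invFun := fun φ => φ ∘ₗ β.toLinearMap
      map_add' := fun φ ψ => by ext x; simp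
      map_smul' := fun c φ => by ext x; simp
      left_inv := fun φ => by ext x; simp
      right_inv := fun φ => by ext x; simp }
  rw [TC.cl, TC.cl, h1, h2]

end sums

end Pool.Agent.H51.MF
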