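import Pool.Agent.H51.T2.Sub
import Pool.Agent.H51.T2.Main

/-! # Finite-dimensional modules, maps of projective modules, classes. -/

set_option linter.style.haveILetI false
set_option linter.unusedSectionVars false
set_option autoImplicit false

namespace Pool.Agent.H51.MF

open Module Pool.Agent.H51.T2

universe u v

/-- A finite-dimensional module. -/
structure FM (K : Type v) [Field K] (A : Type u) [Ring A] [Algebra K A] where
  C : Type u
  [i1 : AddCommGroup C]
  [i2 : Module K C]
  [i3 : Module A C]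
  [i4 : IsScalarTower K A C]
  [i5 : FiniteDimensional K C]

attribute [instance] FM.i1 FM.i2 FM.i3 FM.i4 FM.i5

variable {K : Type v} [Field K] {A : Type u} [Ring A] [Algebra K A]

instance : CoeSort (FM K A) (Type u) := ⟨FM.C⟩

/-- A submodule. -/
abbrev FM.sub (X : FM K A) (S : Submodule A X) : FM K A :=
  { C := S
    i5 := Module.Finite.of_injective (S.subtype.restrictScalars K) (Submodule.injective_subtype S) }

/-- A quotient. -/
abbrev FM.quot (X : FM K A) (S : Submodule A X) : FM K A :=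
  { C := X ⧸ S
    i5 := Module.Finite.of_surjective (S.mkQ.restrictScalars K) (Submodule.mkQ_surjective S) }

/-- A product. -/
abbrev FM.prod (X Y : FM K A) : FM K A := { C := X × Y }

/-- A power. -/
abbrev FM.pow (X : FM K A) (k : ℕ) : FM K A := { C := Fin k → X }

/-- The zero module. -/
abbrev FM.zero : FM K A := { C := PUnit.{u + 1} }

/-- The dimension of the space of homomorphisms. -/
noncomputable def hd (X Y : FM K A) : ℕ := finrank K (X →ₗ[A] Y)

/-- A map of projective modules. -/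
structure TC (K : Type v) [Field K] (A : Type u) [Ring A] [Algebra K A] where
  P : FM K A
  Q : FM K A
  [hP : Module.Projective A P]
  [hQ : Module.Projective A Q]
  f : P →ₗ[A] Q

attribute [instance] TC.hP TC.hQ

/-- The direct sum of two maps. -/
abbrev TC.add (g h : TC K A) : TC K A :=
  { P := g.P.prod h.P, Q := g.Q.prod h.Q, f := g.f.prodMap h.f }

/-- The map between zero modules. -/
abbrev TC.zero : TC K A :=
  { P := FM.zero, Q := FM.zero, hP := projective_punit, hQ := projective_punit, f := 0 }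

/-- The cokernel. -/
abbrev TC.C (g : TC K A) : FM K A := g.Q.quot (LinearMap.range g.f)

/-- The dimension. -/
noncomputable def TC.size (g : TC K A) : ℕ := finrank K g.P + finrank K g.Q

/-- The class: `dim Hom (Q, X) - dim Hom (P, X)`. -/
noncomputable def TC.cl (g : TC K A) (X : FM K A) : ℤ := (hd g.Q X : ℤ) - hd g.P X

/-- Compatible maps. -/
def Comp (g h : TC K A) : Prop := EZero g.f h.f ∧ EZero h.f g.f

/-- All spaces of maps between projective modules contain rigid maps. -/
def HR (K : Type v) [Field K] (A : Type u) [Ring A] [Algebra K A] : Prop :=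
  ∀ (P Q : FM K A) [Module.Projective A P] [Module.Projective A Q], ∃ f : P →ₗ[A] Q, Rigid f

/-- Coordinates: a finite list of projective modules of which all projective modules are direct
sums. -/
structure Coo (K : Type v) [Field K] (A : Type u) [Ring A] [Algebra K A] where
  n : ℕ
  E : Fin n → FM K A
  proj : ∀ i, Module.Projective A (E i)
  full : ∀ (P : FM K A) [Module.Projective A P], ∃ a : Fin n → ℕ, ∀ X : FM K A,
    hd P X = ∑ i, a i * hd (E i) X

/-- The dimension vector. -/
noncomputable def Coo.v (c : Coo K A) (X : FM K A) : Fin c.n → ℤ := fun i => (hd (c.E i) X : ℤ)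

/-- The map `g` has the class `θ`. -/
def HasCl (c : Coo K A) (g : TC K A) (θ : Fin c.n → ℤ) : Prop :=
  ∀ X : FM K A, g.cl X = θ ⬝ᵥ c.v X

/-- The wide subcategory of a map `g`: no maps from the cokernel, all maps factor. -/
def InW (g : TC K A) (X : FM K A) : Prop := TT g.f X ∧ HH g.f X

/-- `g` is rigid, compatible with `f₀` and has the class `θ` on the wide subcategory of `f₀`. -/
structure Rz (c : Coo K A) (f₀ g : TC K A) (θ : Fin c.n → ℤ) : Prop where
  rig : Rigid g.f
  comp : Comp f₀ g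
  cl : ∀ X : FM K A, InW f₀ X → g.cl X = θ ⬝ᵥ c.v X

/-- The largest quotient of the cokernel of `g` without maps from the cokernel of `f₀`. -/
abbrev CW (f₀ g : TC K A) : FM K A := g.C.quot (tr A f₀.C g.C)

/-- Simple objects of the wide subcategory. -/
def SimW (g : TC K A) (N : FM K A) : Prop :=
  InW g N ∧ Nontrivial N ∧ ∀ S : Submodule A N, InW g (N.sub S) → S = ⊥ ∨ S = ⊤

/-- Numerical torsion class in the wide subcategory of `f₀`. -/
def TbN (c : Coo K A) (f₀ : TC K A) (η : Fin c.n → ℤ) (X : FM K A) : Prop :=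
  ∀ S : Submodule A X, InW f₀ (X.quot S) → 0 ≤ η ⬝ᵥ c.v (X.quot S)

/-- Numerical torsion-free class in the wide subcategory of `f₀`. -/
def FbN (c : Coo K A) (f₀ : TC K A) (η : Fin c.n → ℤ) (X : FM K A) : Prop :=
  ∀ S : Submodule A X, InW f₀ (X.sub S) → η ⬝ᵥ c.v (X.sub S) ≤ 0

/-- The objects of the wide subcategory without maps to `Y`. -/
def Bp (f₀ : TC K A) (Y X : FM K A) : Prop := InW f₀ X ∧ ∀ φ : X →ₗ[A] Y, φ = 0

/-- The torsion class of `η` without maps to `Y`. -/
def BB (c : Coo K A) (f₀ : TC K A) (Y : FM K A) (η : Fin c.n → ℤ) (X : FM K A) : Prop :=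
  TbN c f₀ η X ∧ Bp f₀ Y X

/-- Comparison of torsion classes. -/
def Le (c : Coo K A) (f₀ : TC K A) (Y : FM K A) (η η' : Fin c.n → ℤ) : Prop :=
  ∀ X, BB c f₀ Y η X → BB c f₀ Y η' X

/-- The dimension vectors of the objects of the wide subcategory. -/
def WV (c : Coo K A) (f₀ : TC K A) : Set (Fin c.n → ℤ) := {w | ∃ X, InW f₀ X ∧ w = c.v X}

/-- Submodules of `Y` (with sign) and quotients of `Z` in the wide subcategory. -/
def VV (c : Coo K A) (f₀ : TC K A) (Y Z : FM K A) : Set (Fin c.n → ℤ) :=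
  {w | ∃ S : Submodule A Y, InW f₀ (Y.sub S) ∧ w = - c.v (Y.sub S)} ∪
    {w | ∃ S : Submodule A Z, InW f₀ (Z.quot S) ∧ w = c.v (Z.quot S)}

/-- The rank of a set of integral vectors. -/
noncomputable def rk {n : ℕ} (T : Set (Fin n → ℤ)) : ℕ :=
  finrank ℚ (Submodule.span ℚ ((fun (w : Fin n → ℤ) (i : Fin n) => (w i : ℚ)) '' T))

/-- A functional which does not vanish on a set. -/
def NZ {n : ℕ} (D : Set (Fin n → ℤ)) (η : Fin n → ℤ) : Prop := ∃ w ∈ D, η ⬝ᵥ w ≠ 0

/-- Two functionals which are linearly independent on a set. -/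
def Ind {n : ℕ} (D : Set (Fin n → ℤ)) (η η' : Fin n → ℤ) : Prop :=
  ∀ a b : ℤ, (∀ w ∈ D, (a • η + b • η') ⬝ᵥ w = 0) → a = 0 ∧ b = 0

/-- The cone of functionals, nonnegative on `V` and zero on `L`. -/
def InF {n : ℕ} (V L : Set (Fin n → ℤ)) (η : Fin n → ℤ) : Prop :=
  (∀ w ∈ V, 0 ≤ η ⬝ᵥ w) ∧ ∀ w ∈ L, η ⬝ᵥ w = 0

/-- The tight vectors. -/
def Tight {n : ℕ} (V : Set (Fin n → ℤ)) (η : Fin n → ℤ) : Set (Fin n → ℤ) :=
  {w | w ∈ V ∧ η ⬝ᵥ w = 0}

/-- Endomorphisms of a map are nilpotent or bijective. -/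
def LocEnd (g : TC K A) : Prop :=
  ∀ (s : g.P →ₗ[A] g.P) (t : g.Q →ₗ[A] g.Q), g.f ∘ₗ s = t ∘ₗ g.f →
    (Function.Bijective s ∧ Function.Bijective t) ∨ ∃ m : ℕ, s ^ m = 0 ∧ t ^ m = 0

end Pool.Agent.H51.MF
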