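import Pool.Agent.H51.MF.Base

/-! # From coordinates to dimensions -/

set_option linter.style.haveILetI false
set_option linter.unusedSectionVars false
set_option autoImplicit false

namespace Pool.Agent.H51.MF

open Module Pool.Agent.H51.T2

universe u v

theorem final_hd_le (K : Type v) [Field K] {A : Type u} [Ring A] [Algebra K A] (P X : FM K A) :
    hd P X ≤ finrank K P * finrank K X := by
  have h1 : finrank K (P →ₗ[A] X) ≤ finrank K (P →ₗ[K] X) :=
    LinearMap.finrank_le_finrank_of_injective (f := LinearMap.restrictScalarsₗ K A P X K)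
      (LinearMap.restrictScalars_injective K)
  rw [Module.finrank_linearMap K K] at h1
  exact h1

/-- Finitely many bricks of bounded dimension. -/
theorem bricks_of_dim (K : Type v) [Field K] [Infinite K] (A : Type u) [Ring A] [Algebra K A]
    [FiniteDimensional K A] (hCOORD : S_COORD K A) (hBRK : S_BRK K A) (hHR : HR K A) (m : ℕ) :
    ∃ L : List (FM K A), ∀ M : FM K A, Brick A M → finrank K M ≤ m →
      ∃ X ∈ L, Nonempty (M ≃ₗ[A] X) := by
  classical
  obtain ⟨c⟩ := hCOORD inferInstance
  choose L hL using hBRK inferInstance inferInstance hHR c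
  let T : Finset (Fin c.n → ℤ) :=
    Fintype.piFinset fun i => Finset.Icc (0 : ℤ) ((finrank K (c.E i) * m : ℕ) : ℤ)
  refine ⟨T.toList.flatMap L, fun M hM hm => ?_⟩
  obtain ⟨X, hX, hX'⟩ := hL (c.v M) M hM rfl
  refine ⟨X, ?_, hX'⟩
  rw [List.mem_flatMap]
  refine ⟨c.v M, ?_, hX⟩
  rw [Finset.mem_toList, Fintype.mem_piFinset]
  intro i
  rw [Finset.mem_Icc]
  refine ⟨v_nonneg c M i, ?_⟩
  have h1 := final_hd_le K (c.E i) M
  have h2 : finrank K (c.E i) * finrank K M ≤ finrank K (c.E i) * m := Nat.mul_le_mul_left _ hm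
  simp only [Coo.v]
  exact_mod_cast h1.trans h2

/-- All lattice points rigid: finitely many bricks of bounded dimension. -/
theorem bricks_of_rigid (K : Type v) [Field K] [Infinite K] (A : Type u) [Ring A] [Algebra K A]
    [FiniteDimensional K A] (hCOORD : S_COORD K A) (hBRK : S_BRK K A)
    (hR : ∀ (P Q : Type u) [AddCommGroup P] [Module A P] [AddCommGroup Q] [Module A Q]
      [Module.Finite A P] [Module.Finite A Q] [Module.Projective A P] [Module.Projective A Q],
      ∃ f : P →ₗ[A] Q, Rigid f) (m : ℕ) :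
    ∃ L : List (ModuleCat.{u} A), ∀ (M : Type u) [AddCommGroup M] [Module K M] [Module A M]
      [IsScalarTower K A M] [Module.Finite K M], Nontrivial M →
      (∀ φ : M →ₗ[A] M, φ ≠ 0 → Function.Bijective φ) → finrank K M ≤ m →
      ∃ X ∈ L, Nonempty (M ≃ₗ[A] X) := by
  have hHR : HR K A := by
    intro P Q _ _
    haveI : Module.Finite A P := Module.Finite.of_restrictScalars_finite K A P
    haveI : Module.Finite A Q := Module.Finite.of_restrictScalars_finite K A Q
    exact hR P Q
  obtain ⟨L, hL⟩ := bricks_of_dim K A hCOORD hBRK hHR m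
  refine ⟨L.map fun X : FM K A => ModuleCat.of A X, fun M _ _ _ _ _ h1 h2 h3 => ?_⟩
  obtain ⟨X, hX, hX'⟩ := hL { C := M } ⟨h1, h2⟩ h3
  exact ⟨ModuleCat.of A X, List.mem_map.2 ⟨X, hX, rfl⟩, hX'⟩

end Pool.Agent.H51.MF
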