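import Pool.Agent.H51.MF.Defs

/-! # Statements of the modules -/

set_option linter.style.haveILetI false
set_option linter.unusedSectionVars false
set_option autoImplicit false

namespace Pool.Agent.H51.MF

open Module Pool.Agent.H51.T2

universe u v

section abstract_part

/-- LIN1: the rank drops on the kernel of a functional. -/
def S_LIN1 : Prop := ∀ (n : ℕ) (D T : Set (Fin n → ℤ)) (θ : Fin n → ℤ),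
  (∀ w ∈ T, (w ∈ D ∨ -w ∈ D) ∧ θ ⬝ᵥ w = 0) → NZ D θ → rk T < rk D

/-- LIN2: a functional vanishing on `T` and independent of `θ` on `D`. -/
def S_LIN2 : Prop := ∀ (n : ℕ) (D T : Set (Fin n → ℤ)) (θ : Fin n → ℤ), NZ D θ →
  rk T + 2 ≤ rk D → ∃ η : Fin n → ℤ, (∀ w ∈ T, η ⬝ᵥ w = 0) ∧ Ind D θ η

/-- LIN3: in codimension one the functional is determined up to a factor. -/
def S_LIN3 : Prop := ∀ (n : ℕ) (D T : Set (Fin n → ℤ)) (θ θ' : Fin n → ℤ),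
  (∀ w ∈ T, w ∈ D ∨ -w ∈ D) → (∀ w ∈ T, θ ⬝ᵥ w = 0) → (∀ w ∈ T, θ' ⬝ᵥ w = 0) → NZ D θ → NZ D θ' →
  rk D ≤ rk T + 1 → ∃ (a : ℤ) (b : ℕ), a ≠ 0 ∧ 0 < b ∧ ∀ w ∈ D, a * (θ ⬝ᵥ w) = b * (θ' ⬝ᵥ w)

/-- LIN4: large multiples. -/
def S_LIN4 : Prop := ∀ (n : ℕ) (V : Set (Fin n → ℤ)) (θ η : Fin n → ℤ), V.Finite →
  (∀ w ∈ V, 0 ≤ θ ⬝ᵥ w) → (∀ w ∈ V, θ ⬝ᵥ w = 0 → 0 ≤ η ⬝ᵥ w) →
  ∃ M : ℕ, ∀ m : ℕ, M ≤ m → ∀ w ∈ V, 0 ≤ ((m : ℤ) • θ + η) ⬝ᵥ w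

/-- CHAIN: maximal elements exist (finite-dimensional rational geometry, no modules). -/
def S_CHAIN : Prop := ∀ (n : ℕ) (D : Set (Fin n → ℤ)) (le : (Fin n → ℤ) → (Fin n → ℤ) → Prop)
  (AA : Set (Set (Fin n → ℤ))),
  (∀ η, le η η) → (∀ η η' η'', le η η' → le η' η'' → le η η'') →
  -- scaling
  (∀ (η η' : Fin n → ℤ) (a b : ℕ), 0 < a → 0 < b →
    (∀ w ∈ D, (a : ℤ) * (η ⬝ᵥ w) = b * (η' ⬝ᵥ w)) → le η η') →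
  -- allowed sets of vectors
  (∀ V ∈ AA, V.Finite ∧ ∀ w ∈ V, w ∈ D ∨ -w ∈ D) →
  -- pushing
  (∀ V ∈ AA, ∀ θ₁, InF V ∅ θ₁ → NZ D θ₁ → ∃ V₁ ∈ AA, V ⊆ V₁ ∧
    (∀ θ, InF V ∅ θ → le θ₁ θ → InF V₁ ∅ θ) ∧
    (∀ (θ θ' : Fin n → ℤ) (b s : ℕ), 0 < b → θ' = (b : ℤ) • θ - (s : ℤ) • θ₁ →
      InF V₁ ∅ θ' → le θ θ') ∧
    (InF V₁ ∅ (-θ₁) → ∀ θ, InF V₁ ∅ θ → le θ (-θ₁))) →
  -- maximal elements on faces of codimension at least two are top elements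
  (∀ V ∈ AA, ∀ L ⊆ V, ∀ θ, InF V L θ → NZ D θ →
    (∀ η, InF V L η → NZ D η → le θ η → le η θ) → rk (Tight V θ) + 2 ≤ rk D → ∀ η, le η θ) →
  ∀ V ∈ AA, ∀ L ⊆ V, ∀ θ, InF V L θ → NZ D θ →
    ∃ θ', InF V L θ' ∧ NZ D θ' ∧ le θ θ' ∧ ∀ η, InF V L η → NZ D η → le θ' η → le η θ'

end abstract_part

variable (K : Type v) [Field K] (A : Type u) [Ring A] [Algebra K A]

/-! ### Independent modules -/

/-- COORD: coordinates exist. -/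
def S_COORD : Prop := FiniteDimensional K A → Nonempty (Coo K A)

/-- CLS: all classes have coordinates, and all integral vectors are classes. -/
def S_CLS : Prop := ∀ c : Coo K A, (∀ g : TC K A, ∃ θ, HasCl c g θ) ∧
  ∀ θ : Fin c.n → ℤ, ∃ g : TC K A, HasCl c g θ

/-- DIM: the dimension functional. -/
def S_DIM : Prop := FiniteDimensional K A → ∀ c : Coo K A, ∃ δ : Fin c.n → ℤ,
  ∀ X : FM K A, δ ⬝ᵥ c.v X = (finrank K X : ℤ)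

/-- STAR: rigid maps compatible with a given one, with prescribed class up to multiples. -/
def S_STAR : Prop := Infinite K → HR K A → ∀ (f₀ h : TC K A), Rigid f₀.f →
  ∃ (N : ℕ) (g : TC K A), Rigid g.f ∧ Comp f₀ g ∧ (∀ X : FM K A, g.cl X = N * f₀.cl X + h.cl X) ∧
    ∀ X : FM K A, TT f₀.f X → TT h.f X → TT g.f X

/-- FIT: Fitting decomposition of an endomorphism `(s, t)` of a map. -/
def S_FIT : Prop := ∀ (g : TC K A) (s : g.P →ₗ[A] g.P) (t : g.Q →ₗ[A] g.Q),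
  g.f ∘ₗ s = t ∘ₗ g.f → ∃ (m : ℕ) (g₀ g₁ : TC K A) (eP : g.P ≃ₗ[A] (g₀.P × g₁.P))
    (eQ : g.Q ≃ₗ[A] (g₀.Q × g₁.Q)), (∀ x, eQ (g.f x) = (g₀.f (eP x).1, g₁.f (eP x).2)) ∧
    (∀ x, (eQ ((t ^ m) x)).1 = 0) ∧ g₀.size + g₁.size = g.size ∧
    (g₁.size = 0 → s ^ m = 0 ∧ t ^ m = 0) ∧
    (g₀.size = 0 → Function.Bijective s ∧ Function.Bijective t)

/-- SPL: splitting off a summand. -/
def S_SPL : Prop := ∀ (g₁ g₂ : TC K A) (u : g₁.P →ₗ[A] g₂.P) (m : g₁.Q →ₗ[A] g₂.Q)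
  (w : g₂.P →ₗ[A] g₁.P) (m' : g₂.Q →ₗ[A] g₁.Q), g₂.f ∘ₗ u = m ∘ₗ g₁.f →
  g₁.f ∘ₗ w = m' ∘ₗ g₂.f → Function.Bijective (w ∘ₗ u) → Function.Bijective (m' ∘ₗ m) →
  ∃ g₃ : TC K A, Iso g₂.f (g₁.add g₃).f ∧ g₁.size + g₃.size = g₂.size

/-- NAK: a functional on `E(g, X)` killed by the endomorphisms which are not bijective. -/
def S_NAK : Prop := ∀ (g : TC K A) (X : FM K A), LocEnd g → ¬ TT g.f X →
  ∃ ξ : (g.P →ₗ[A] X) →ₗ[K] K, ξ ≠ 0 ∧ (∀ l : g.Q →ₗ[A] X, ξ (l ∘ₗ g.f) = 0) ∧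
    ∀ (s : g.P →ₗ[A] g.P) (t : g.Q →ₗ[A] g.Q), g.f ∘ₗ s = t ∘ₗ g.f →
      ¬ (Function.Bijective s ∧ Function.Bijective t) → ∀ z : g.P →ₗ[A] X, ξ (z ∘ₗ s) = 0

/-- PO: the universal extension of `X` by the cokernel of `g₂` (pushout of
`X ← P₂ ^ k → Q₂ ^ k`, the maps `P₂ → X` a basis). -/
def S_PO : Prop := ∀ (g₂ : TC K A) (X : FM K A), Rigid g₂.f →
  ∃ (X' : FM K A) (ι : X →ₗ[A] X'), TT g₂.f X' ∧
    (∀ g₁ : TC K A, TT g₁.f X' → ∀ z : g₁.P →ₗ[A] X, ∃ (m : g₁.Q →ₗ[A] X) (k : ℕ)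
      (x : Fin k → (g₂.P →ₗ[A] X)) (u : Fin k → (g₁.P →ₗ[A] g₂.P))
      (m' : Fin k → (g₁.Q →ₗ[A] g₂.Q)), (∀ i, g₂.f ∘ₗ u i = m' i ∘ₗ g₁.f) ∧
        z = m ∘ₗ g₁.f + ∑ i, x i ∘ₗ u i) ∧
    (∀ M : FM K A, HH g₂.f M → ∀ φ : X' →ₗ[A] M, φ ∘ₗ ι = 0 → φ = 0) ∧
    (∀ f₀ : TC K A, TT f₀.f X → TT f₀.f g₂.C → TT f₀.f X')

/-- LSUB: the largest submodule in the class `TT`. -/
def S_LSUB : Prop := ∀ (f : TC K A) (Y : FM K A), ∃ U : Submodule A Y, TT f.f (Y.sub U) ∧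
  ∀ U' : Submodule A Y, TT f.f (Y.sub U') → U' ≤ U

/-! ### Modules of the second layer -/

/-- NUM: the numerical description. -/
def S_NUM : Prop := ∀ (c : Coo K A) (f₀ g : TC K A) (θ : Fin c.n → ℤ) (X : FM K A),
  Rigid f₀.f → Rz c f₀ g θ → InW f₀ X →
  (TT g.f X ↔ TbN c f₀ θ X) ∧ (HH g.f X ↔ FbN c f₀ θ X)

/-- REAL: realisation of functionals. -/
def S_REAL : Prop := Infinite K → HR K A → ∀ (c : Coo K A) (f₀ : TC K A) (θ : Fin c.n → ℤ),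
  Rigid f₀.f → ∃ g : TC K A, Rz c f₀ g θ

/-- TBN: numerical torsion classes are closed under quotients, extensions, and contain what is
generated by their objects. -/
def S_TBN : Prop := ∀ (c : Coo K A) (f₀ : TC K A) (η : Fin c.n → ℤ), Rigid f₀.f →
  (∀ (X : FM K A) (S : Submodule A X), InW f₀ X → TbN c f₀ η X → InW f₀ (X.quot S) →
    TbN c f₀ η (X.quot S)) ∧
  (∀ (X : FM K A) (S : Submodule A X), InW f₀ (X.sub S) → InW f₀ (X.quot S) →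
    TbN c f₀ η (X.sub S) → TbN c f₀ η (X.quot S) → TbN c f₀ η X) ∧
  (∀ (X Y : FM K A) (k : ℕ) (σ : (Fin k → X) →ₗ[A] Y), InW f₀ X → InW f₀ Y →
    Function.Surjective σ → TbN c f₀ η X → TbN c f₀ η Y)

/-- TRC: the trace of the cokernel of `g`. -/
def S_TRC : Prop := ∀ (c : Coo K A) (f₀ g : TC K A) (θ : Fin c.n → ℤ), Rigid f₀.f →
  Rz c f₀ g θ → InW f₀ (CW f₀ g) ∧ TT g.f (CW f₀ g) ∧
  (∀ S : Submodule A (CW f₀ g), InW f₀ ((CW f₀ g).quot S) → S ≠ ⊤ →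
    0 < θ ⬝ᵥ c.v ((CW f₀ g).quot S)) ∧
  (∀ Y : FM K A, InW f₀ Y → HH g.f Y → ∀ φ : CW f₀ g →ₗ[A] Y, φ = 0) ∧
  ∀ X : FM K A, InW f₀ X → ∃ T : Submodule A X, InW f₀ (X.sub T) ∧ InW f₀ (X.quot T) ∧
    TT g.f (X.sub T) ∧ HH g.f (X.quot T) ∧
    ∃ (k : ℕ) (σ : (Fin k → CW f₀ g) →ₗ[A] (X.sub T)), Function.Surjective σ

/-- PUSH: Lemma P. -/
def S_PUSH : Prop := ∀ (c : Coo K A) (f₀ g₁ : TC K A) (θ₁ θ θ' : Fin c.n → ℤ), Rigid f₀.f →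
  Rz c f₀ g₁ θ₁ → (∀ M : FM K A, InW f₀ M → 0 ≤ θ ⬝ᵥ c.v M → θ₁ ⬝ᵥ c.v M ≤ 0 →
    0 ≤ θ' ⬝ᵥ c.v M) → TbN c f₀ θ' (CW f₀ g₁) →
  ∀ X : FM K A, InW f₀ X → TbN c f₀ θ X → TbN c f₀ θ' X

/-- SM: small deformations. -/
def S_SM : Prop := ∀ (c : Coo K A) (f₀ g : TC K A) (θ η : Fin c.n → ℤ), Rigid f₀.f →
  Rz c f₀ g θ → ∃ M : ℕ, ∀ m : ℕ, M ≤ m → ∀ X : FM K A, InW f₀ X → TbN c f₀ θ X →
    (∀ T : Submodule A X, InW (f₀.add g) (X.quot T) → 0 ≤ η ⬝ᵥ c.v (X.quot T)) →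
    TbN c f₀ ((m : ℤ) • θ + η) X

/-- FINV: finitely many dimension vectors. -/
def S_FINV : Prop := ∀ (c : Coo K A) (X : FM K A),
  {w | ∃ S : Submodule A X, w = c.v (X.sub S)}.Finite ∧
  {w | ∃ S : Submodule A X, w = c.v (X.quot S)}.Finite

/-- CS: composition series. -/
def S_CS : Prop := ∀ (c : Coo K A) (f₁ : TC K A) (η : Fin c.n → ℤ) (X : FM K A), InW f₁ X →
  (∀ (N : FM K A) (T S : Submodule A X), SimW f₁ N → T ≤ S → InW f₁ (X.sub T) →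
    InW f₁ (X.sub S) → c.v N = c.v (X.sub S) - c.v (X.sub T) → 0 ≤ η ⬝ᵥ c.v N) →
  0 ≤ η ⬝ᵥ c.v X

/-- SIM: simple subobjects and simple quotients. -/
def S_SIM : Prop := ∀ (f₁ : TC K A) (X : FM K A), InW f₁ X → Nontrivial X →
  (∃ (N : FM K A) (φ : N →ₗ[A] X), SimW f₁ N ∧ Function.Injective φ) ∧
  ∃ (N : FM K A) (φ : X →ₗ[A] N), SimW f₁ N ∧ Function.Surjective φ

/-- TI: tight vectors. -/
def S_TI : Prop := ∀ (c : Coo K A) (f₀ g : TC K A) (Y Z : FM K A) (θ η : Fin c.n → ℤ),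
  Rigid f₀.f → InW f₀ Y → InW f₀ Z → Rz c f₀ g θ → InF (VV c f₀ Y Z) ∅ θ →
  (∀ N : FM K A, SimW (f₀.add g) N → (∀ ζ : Fin c.n → ℤ,
    (∀ w ∈ Tight (VV c f₀ Y Z) θ, ζ ⬝ᵥ w = 0) → ζ ⬝ᵥ c.v N = 0) → η ⬝ᵥ c.v N = 0) →
  ∀ w ∈ Tight (VV c f₀ Y Z) θ, η ⬝ᵥ w = 0

/-- LD: Lemma D. -/
def S_LD : Prop := ∀ (f₀ g₁ g₂ : TC K A) (Y : FM K A), Rigid f₀.f → Rigid g₁.f → Rigid g₂.f →
  Comp f₀ g₁ → Comp f₀ g₂ → InW f₀ Y → HH g₁.f Y → HH g₂.f Y →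
  (∀ X, Bp f₀ Y X → (TT g₁.f X ↔ TT g₂.f X)) → LocEnd g₁ →
  (∀ (u : g₁.P →ₗ[A] g₂.P) (m : g₁.Q →ₗ[A] g₂.Q) (w : g₂.P →ₗ[A] g₁.P)
    (m' : g₂.Q →ₗ[A] g₁.Q), g₂.f ∘ₗ u = m ∘ₗ g₁.f → g₁.f ∘ₗ w = m' ∘ₗ g₂.f →
    ¬ (Function.Bijective (w ∘ₗ u) ∧ Function.Bijective (m' ∘ₗ m))) →
  ∀ X, Bp f₀ Y X → TT g₁.f X

/-- LI: Lemma I. -/
def S_LI : Prop := Infinite K → FiniteDimensional K A → HR K A →
  ∀ (c : Coo K A) (f₁ : TC K A) (N₁ : FM K A), Rigid f₁.f → SimW f₁ N₁ →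
  ∃ η : Fin c.n → ℤ, 0 < η ⬝ᵥ c.v N₁ ∧
    ∀ N : FM K A, SimW f₁ N → ¬ Nonempty (N ≃ₗ[A] N₁) → η ⬝ᵥ c.v N = 0

/-- LT: Lemma T. -/
def S_LT : Prop := Infinite K → HR K A → ∀ (c : Coo K A) (f₀ : TC K A) (Y Z : FM K A)
  (L : Set (Fin c.n → ℤ)), Rigid f₀.f → InW f₀ Y → InW f₀ Z → L ⊆ VV c f₀ Y Z →
  ∀ θ θ', InF (VV c f₀ Y Z) L θ → InF (VV c f₀ Y Z) L θ' → Ind (WV c f₀) θ θ' →
  (∀ η, InF (VV c f₀ Y Z) L η → NZ (WV c f₀) η → Le c f₀ Y θ η → Le c f₀ Y η θ) →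
  Le c f₀ Y θ θ' → ∀ X, Bp f₀ Y X → TbN c f₀ θ X

/-! ### Modules of the third layer -/

/-- CM: Claim M. -/
def S_CM : Prop := Infinite K → FiniteDimensional K A → HR K A →
  ∀ (c : Coo K A) (f₀ : TC K A) (Y Z : FM K A)
  (L : Set (Fin c.n → ℤ)), Rigid f₀.f → InW f₀ Y → InW f₀ Z → L ⊆ VV c f₀ Y Z →
  ∀ θ, InF (VV c f₀ Y Z) L θ → NZ (WV c f₀) θ →
  (∀ η, InF (VV c f₀ Y Z) L η → NZ (WV c f₀) η → Le c f₀ Y θ η → Le c f₀ Y η θ) →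
  rk (Tight (VV c f₀ Y Z) θ) + 2 ≤ rk (WV c f₀) → ∀ X, Bp f₀ Y X → TbN c f₀ θ X

/-- MAX: existence of maximal functionals. -/
def S_MAX : Prop := Infinite K → FiniteDimensional K A → HR K A →
  ∀ (c : Coo K A) (f₀ : TC K A) (Y : FM K A), Rigid f₀.f → InW f₀ Y →
  ∀ θ, (∀ w ∈ VV c f₀ Y FM.zero, 0 ≤ θ ⬝ᵥ w) → NZ (WV c f₀) θ →
  ∃ θ', (∀ w ∈ VV c f₀ Y FM.zero, 0 ≤ θ' ⬝ᵥ w) ∧ NZ (WV c f₀) θ' ∧ Le c f₀ Y θ θ' ∧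
    ∀ η, (∀ w ∈ VV c f₀ Y FM.zero, 0 ≤ η ⬝ᵥ w) → NZ (WV c f₀) η →
      Le c f₀ Y θ' η → Le c f₀ Y η θ'

/-- ONE: in rank one there is one simple object. -/
def S_ONE : Prop := Infinite K → FiniteDimensional K A → HR K A →
  ∀ (c : Coo K A) (f₁ : TC K A), Rigid f₁.f → rk (WV c f₁) ≤ 1 →
  ∀ N N' : FM K A, SimW f₁ N → SimW f₁ N' → Nonempty (N ≃ₗ[A] N')

/-- The conclusion of Proposition P. -/
def PropP (c : Coo K A) (f₀ : TC K A) (Y : FM K A) : Prop :=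
  ∃ η, NZ (WV c f₀) η ∧ FbN c f₀ η Y ∧ ∀ X, Bp f₀ Y X → TbN c f₀ η X

/-- PP1: Proposition P in rank one. -/
def S_PP1 : Prop := Infinite K → FiniteDimensional K A → HR K A →
  ∀ (c : Coo K A) (f₀ : TC K A) (Y : FM K A), Rigid f₀.f → InW f₀ Y →
  rk (WV c f₀) = 1 → PropP K A c f₀ Y

/-- PP2: the inductive step for Proposition P. -/
def S_PP2 : Prop := Infinite K → FiniteDimensional K A → HR K A →
  ∀ (c : Coo K A) (f₀ : TC K A) (Y : FM K A), Rigid f₀.f → InW f₀ Y →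
  2 ≤ rk (WV c f₀) →
  (∀ (f₁ : TC K A) (Y₁ : FM K A), Rigid f₁.f → InW f₁ Y₁ → 1 ≤ rk (WV c f₁) →
    rk (WV c f₁) < rk (WV c f₀) → PropP K A c f₁ Y₁) → PropP K A c f₀ Y

/-- PP: Proposition P. -/
def S_PP : Prop := Infinite K → FiniteDimensional K A → HR K A →
  ∀ (c : Coo K A) (f₀ : TC K A) (Y : FM K A), Rigid f₀.f → InW f₀ Y →
  1 ≤ rk (WV c f₀) → PropP K A c f₀ Y

/-- POSF: a positive functional which is not proportional to a given one. -/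
def S_POSF : Prop := FiniteDimensional K A → ∀ (c : Coo K A) (f₀ : TC K A) (η : Fin c.n → ℤ),
  2 ≤ rk (WV c f₀) → NZ (WV c f₀) η → ∃ p : Fin c.n → ℤ,
    (∀ X : FM K A, Nontrivial X → 0 < p ⬝ᵥ c.v X) ∧ Ind (WV c f₀) η p

/-- DICH: a brick in a wide subcategory of rank at least two is in a smaller one. -/
def S_DICH : Prop := Infinite K → FiniteDimensional K A → HR K A →
  ∀ (c : Coo K A) (f₀ : TC K A) (M : FM K A), Rigid f₀.f → InW f₀ M → Brick A M →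
  2 ≤ rk (WV c f₀) → ∃ (g : TC K A) (η : Fin c.n → ℤ), Rz c f₀ g η ∧ NZ (WV c f₀) η ∧
    InW (f₀.add g) M

/-- DET: the dimension vectors of the submodules determine membership in `InW`. -/
def S_DET : Prop := ∀ (c : Coo K A) (f₁ : TC K A) (M M' : FM K A), Rigid f₁.f →
  c.v M = c.v M' → {w | ∃ S : Submodule A M, w = c.v (M.sub S)} =
    {w | ∃ S : Submodule A M', w = c.v (M'.sub S)} → InW f₁ M → InW f₁ M'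

/-- BRK: the final theorem. -/
def S_BRK : Prop := Infinite K → FiniteDimensional K A → HR K A →
  ∀ (c : Coo K A) (d : Fin c.n → ℤ), ∃ L : List (FM K A), ∀ M : FM K A, Brick A M →
    c.v M = d → ∃ X ∈ L, Nonempty (M ≃ₗ[A] X)

end Pool.Agent.H51.MF
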